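import Pool.Agent.H42.T2.VM
import Pool.Agent.H59.T2.ZF

/-!
# Module CC of the board t2_modules (MP_657073_al): the Clifford correspondence
-/

open scoped Classical ComplexConjugate

namespace Pool.Agent.H18.T2.CC

open AMc AMe AMt Pool.Agent.H77.EA.All

section
variable {Γ : Type} [Group Γ] [Fintype Γ]

theorem eq_sum_single (z : MonoidAlgebra ℂ Γ) :
    z = ∑ g : Γ, z.coeff g • MonoidAlgebra.single g (1 : ℂ) := by
  apply MonoidAlgebra.ext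
  ext x
  rw [MonoidAlgebra.coeff_sum, Finsupp.finsetSum_apply, Finset.sum_eq_single x]
  · rw [MonoidAlgebra.coeff_smul, Finsupp.smul_apply, MonoidAlgebra.coeff_single,
      Finsupp.single_eq_same, smul_eq_mul, mul_one]
  · intro b _ hb
    rw [MonoidAlgebra.coeff_smul, Finsupp.smul_apply, MonoidAlgebra.coeff_single,
      Finsupp.single_eq_of_ne (Ne.symm hb), smul_zero]
  · intro h
    exact absurd (Finset.mem_univ _) h

theorem single_inv_mul (x : Γ) :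
    MonoidAlgebra.single x⁻¹ (1 : ℂ) * MonoidAlgebra.single x 1 = 1 := by
  rw [MonoidAlgebra.single_mul_single, inv_mul_cancel, one_mul]
  rfl

theorem single_mul_eq (x : Γ) (z : MonoidAlgebra ℂ Γ) :
    MonoidAlgebra.single x (1 : ℂ) * z = cn x z * MonoidAlgebra.single x 1 := by
  unfold cn
  rw [mul_assoc, mul_assoc, single_inv_mul, mul_one]

/-- the standing data -/
structure Dt (K U : Subgroup Γ) (θ : Γ → ℂ) : Prop where
  ni : NIn K U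
  ir : θ ∈ IrrS K

variable {K U : Subgroup Γ} {θ : Γ → ℂ}

theorem leKT (h : Dt K U θ) : K ≤ stab U θ := by
  intro k hk
  refine ⟨h.ni.le hk, ?_⟩
  funext g
  exact (fS1 Γ K θ h.ir).2.1 k hk g

theorem leTU : stab U θ ≤ U := fun _ ht => ht.1

theorem niKT (h : Dt K U θ) : NIn K (stab U θ) := ⟨leKT h, fun t ht => h.ni.nor t ht.1⟩

theorem exe (ZE : T_ZE) (h : Dt K U θ) {x : Γ} (hx : x ∈ U) (hxT : x ∉ stab U θ) :
    ei K θ * MonoidAlgebra.single x 1 * ei K θ = 0 := by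
  obtain ⟨-, -, zc, -, zu⟩ := ZE Γ K
  have hnm : ∀ g, g ∈ K ↔ x⁻¹ * g * (x⁻¹)⁻¹ ∈ K := by
    intro g
    constructor
    · exact h.ni.nor x⁻¹ (U.inv_mem hx) g
    · intro hg
      have h2 := h.ni.nor x hx _ hg
      have h3 : x * (x⁻¹ * g * (x⁻¹)⁻¹) * x⁻¹ = g := by group
      rwa [h3] at h2
  have h2 : cj x⁻¹ θ ∈ IrrS K := fS7 Γ K K x⁻¹ hnm θ h.ir
  have h3 : θ ≠ cj x⁻¹ θ := by
    intro he
    apply hxT
    have h4 : x⁻¹ ∈ stab U θ := ⟨U.inv_mem hx, he.symm⟩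
    simpa using (stab U θ).inv_mem h4
  rw [mul_assoc, single_mul_eq, ← mul_assoc, zu, zc θ h.ir _ h2, if_neg h3, zero_mul]

theorem cnT (ZE : T_ZE) {t : Γ} (ht : t ∈ stab U θ) : cn t (ei K θ) = ei K θ := by
  obtain ⟨-, -, -, -, zu⟩ := ZE Γ K
  rw [zu]
  exact congrArg (ei K) ((stab U θ).inv_mem ht).2

theorem eT (ZE : T_ZE) (h : Dt K U θ) : ei K θ ∈ ZA ℂ (stab U θ) (stab U θ) := by
  obtain ⟨z1, -, -, -, -⟩ := ZE Γ K
  refine ⟨fun g hg => (z1 θ h.ir).1.1 g (fun hk => hg (leKT h hk)), fun u hu g => ?_⟩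
  have h1 := congrArg (fun z => z.coeff g) (cnT (K := K) ZE ((stab U θ).inv_mem hu))
  simp only [Pool.Agent.H42.T2.coeff_cn, inv_inv] at h1
  exact h1

theorem ee (ZE : T_ZE) (h : Dt K U θ) : ei K θ * ei K θ = ei K θ := by
  obtain ⟨-, -, zc, -, -⟩ := ZE Γ K
  rw [zc θ h.ir θ h.ir, if_pos rfl]

theorem eze (ZE : T_ZE) (h : Dt K U θ) {z : MonoidAlgebra ℂ Γ}
    (hz : ∀ x, x ∉ U → z.coeff x = 0) :
    ei K θ * z * ei K θ = ei K θ * cst (stab U θ) 1 z := by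
  have hc : cst (stab U θ) 1 z = ∑ x : Γ, (if x ∈ stab U θ then z.coeff x else 0) •
      MonoidAlgebra.single x (1 : ℂ) := by
    conv_lhs => rw [eq_sum_single (cst (stab U θ) 1 z)]
    refine Finset.sum_congr rfl fun x _ => ?_
    rw [Pool.Agent.H42.T2.coeff_cst, inv_one, one_mul]
  rw [hc]
  conv_lhs => rw [eq_sum_single z]
  rw [Finset.mul_sum, Finset.sum_mul, Finset.mul_sum]
  refine Finset.sum_congr rfl fun x _ => ?_
  by_cases hxU : x ∈ U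
  · by_cases hxT : x ∈ stab U θ
    · rw [if_pos hxT, mul_smul_comm, smul_mul_assoc]
      congr 1
      rw [mul_assoc, single_mul_eq, cnT ZE hxT, ← mul_assoc, ee ZE h]
    · rw [if_neg hxT, zero_smul, mul_zero, mul_smul_comm, smul_mul_assoc, exe ZE h hxU hxT,
        smul_zero]
  · have hxT : x ∉ stab U θ := fun hx => hxU hx.1
    rw [hz x hxU, if_neg hxT, zero_smul, mul_zero, zero_mul]

theorem cst_mem {T : Subgroup Γ} (hT : T ≤ U) {z : MonoidAlgebra ℂ Γ} (hz : z ∈ ZA ℂ U U) :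
    cst T 1 z ∈ ZA ℂ T T := by
  refine ⟨fun g hg => ?_, fun u hu g => ?_⟩
  · rw [Pool.Agent.H42.T2.coeff_cst, inv_one, one_mul, if_neg hg]
  · rw [Pool.Agent.H42.T2.coeff_cst, Pool.Agent.H42.T2.coeff_cst, inv_one, one_mul, one_mul,
      hz.2 u (hT hu) g]
    have hiff : u * g * u⁻¹ ∈ T ↔ g ∈ T := by
      constructor
      · intro hg
        have h2 := T.mul_mem (T.mul_mem (T.inv_mem hu) hg) hu
        have h3 : u⁻¹ * (u * g * u⁻¹) * u = g := by group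
        rwa [h3] at h2
      · intro hg
        exact T.mul_mem (T.mul_mem hu hg) (T.inv_mem hu)
    rw [if_congr hiff rfl rfl]

/-- the sum of the `U`-conjugates times an element under `e` -/
theorem sum_mul (ZE : T_ZE) (h : Dt K U θ) {w w' : MonoidAlgebra ℂ Γ}
    (hw : w ∈ ZA ℂ (stab U θ) (stab U θ)) (hwe : w * ei K θ = w) (hew : ei K θ * w' = w') :
    (∑ u : U, cn (u : Γ) w) * w' = (Nat.card (stab U θ) : ℂ) • (w * w') := by
  have h1 : ∀ u : U, cn (u : Γ) w * w' = if (u : Γ) ∈ stab U θ then w * w' else 0 := by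
    intro u
    by_cases hu : (u : Γ) ∈ stab U θ
    · rw [if_pos hu, Pool.Agent.H59.T2.cn_of_mem hw hu]
    · rw [if_neg hu]
      have hu' : (u : Γ)⁻¹ ∉ stab U θ := by
        intro h2
        apply hu
        simpa using (stab U θ).inv_mem h2
      unfold cn
      rw [← hwe, ← hew]
      have h2 : MonoidAlgebra.single (u : Γ) (1 : ℂ) * (w * ei K θ) *
          MonoidAlgebra.single (u : Γ)⁻¹ 1 * (ei K θ * w') =
          MonoidAlgebra.single (u : Γ) (1 : ℂ) * w *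
          (ei K θ * MonoidAlgebra.single (u : Γ)⁻¹ 1 * ei K θ) * w' := by
        simp only [mul_assoc]
      rw [h2, exe ZE h (U.inv_mem u.2) hu', mul_zero, zero_mul]
  rw [Finset.sum_mul, Finset.sum_congr rfl (fun u _ => h1 u), ← Finset.sum_filter,
    Finset.sum_const, ← Nat.cast_smul_eq_nsmul ℂ]
  congr 2
  rw [Nat.card_eq_fintype_card, ← Fintype.card_subtype]
  refine Fintype.card_congr ⟨fun u => ⟨u.1, u.2⟩, fun t => ⟨⟨t.1, leTU t.2⟩, t.2⟩, ?_, ?_⟩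
  · intro u
    rfl
  · intro t
    rfl

theorem ei_one {T : Subgroup Γ} {ψ : Γ → ℂ} (hψ : ψ ∈ IrrS T) :
    (ei T ψ).coeff 1 = ψ 1 * ψ 1 / (Nat.card T : ℂ) := by
  obtain ⟨-, -, ⟨d, -, hd⟩, -⟩ := fS1 Γ T ψ hψ
  rw [Pool.Agent.H59.T2.coeff_ei, hd, Complex.conj_natCast]
  ring

theorem ei_one_ne {T : Subgroup Γ} {ψ : Γ → ℂ} (hψ : ψ ∈ IrrS T) : (ei T ψ).coeff 1 ≠ 0 := by
  obtain ⟨-, -, ⟨d, hd0, hd⟩, -⟩ := fS1 Γ T ψ hψ
  rw [ei_one hψ, hd]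
  have h1 : (Nat.card T : ℂ) ≠ 0 := Nat.cast_ne_zero.2 Nat.card_pos.ne'
  have h2 : (d : ℂ) ≠ 0 := Nat.cast_ne_zero.2 hd0.ne'
  exact div_ne_zero (mul_ne_zero h2 h2) h1

theorem sum_one (w : MonoidAlgebra ℂ Γ) :
    (∑ u : U, cn (u : Γ) w).coeff 1 = (Nat.card U : ℂ) * w.coeff 1 := by
  rw [MonoidAlgebra.coeff_sum, Finsupp.finsetSum_apply]
  have h1 : ∀ u : U, (cn (u : Γ) w).coeff 1 = w.coeff 1 := by
    intro u
    rw [Pool.Agent.H42.T2.coeff_cn]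
    congr 1
    group
  rw [Finset.sum_congr rfl (fun u _ => h1 u), Finset.sum_const, Finset.card_univ, nsmul_eq_mul,
    Nat.card_eq_fintype_card]

theorem over_iff {T : Subgroup Γ} {χ ψ : Γ → ℂ} (hψ : ψ ∈ IrrS T) :
    Over χ ψ ↔ ev χ (ei T ψ) ≠ 0 := by
  obtain ⟨-, -, ⟨d, hd0, hd⟩, -⟩ := fS1 Γ T ψ hψ
  have h1 : (Nat.card T : ℂ) ≠ 0 := Nat.cast_ne_zero.2 Nat.card_pos.ne'
  have h2 : (ψ 1 : ℂ) ≠ 0 := by
    rw [hd]
    exact Nat.cast_ne_zero.2 hd0.ne'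
  have h3 : ev χ (ei T ψ) = ψ 1 / (Nat.card T : ℂ) * ∑ g : Γ, χ g * conj (ψ g) := by
    unfold ev
    rw [Finset.mul_sum]
    refine Finset.sum_congr rfl fun g _ => ?_
    rw [Pool.Agent.H59.T2.coeff_ei]
    ring
  rw [h3]
  unfold Over
  constructor
  · intro h
    exact mul_ne_zero (div_ne_zero h2 h1) h
  · intro h
    exact right_ne_zero_of_mul h

theorem smul_one_or {w f : MonoidAlgebra ℂ Γ} {l : ℂ} (hw : w ≠ 0) (hff : f * f = f)
    (hf : f * w = l • w) : f * w = 0 ∨ f * w = w := by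
  have h1 : f * (f * w) = l • (l • w) := by rw [hf, mul_smul_comm, hf]
  rw [← mul_assoc, hff, hf] at h1
  have h2 : (l * l - l) • w = 0 := by
    rw [sub_smul, ← smul_smul, ← h1, sub_self]
  rcases smul_eq_zero.1 h2 with h3 | h3
  · have h4 : l * (l - 1) = 0 := by linear_combination h3
    rcases mul_eq_zero.1 h4 with h5 | h5
    · left
      rw [hf, h5, zero_smul]
    · right
      rw [hf, sub_eq_zero.1 h5, one_smul]
  · exact absurd h3 hw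

/-- first part -/
theorem part1 (ZE : T_ZE) (ZF : T_ZF) (h : Dt K U θ) {χ : Γ → ℂ} (hχ : χ ∈ IrrS U)
    (hov : Over χ θ) : ∃ ψ ∈ IrrS (stab U θ), Over ψ θ ∧ Over χ ψ ∧
    ei K θ * ei U χ = ei (stab U θ) ψ ∧ χ 1 = ((stab U θ).relIndex U : ℂ) * ψ 1 ∧
    (∀ ψ' ∈ IrrS (stab U θ), Over ψ' θ → Over χ ψ' → ψ' = ψ) ∧
    ∀ z ∈ ZA ℂ U U, ev χ z / χ 1 = ev ψ (cst (stab U θ) 1 z) / ψ 1 := by
  obtain ⟨zt1, zt2, zt3, zt4, -⟩ := ZE Γ (stab U θ)
  obtain ⟨zu1, zu2, zu3, -, -⟩ := ZE Γ U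
  obtain ⟨-, zf2, zf3⟩ := ZF Γ K U h.ni χ hχ
  have heK : ∀ x, x ∉ K → (ei K θ).coeff x = 0 := ((ZE Γ K).1 θ h.ir).1.1
  have heT := eT ZE h
  have heU : ∀ x, x ∉ U → (ei K θ).coeff x = 0 := fun x hx => heT.1 x (fun ht => hx ht.1)
  have hE : ei U χ ∈ ZA ℂ U U := (zu1 χ hχ).1
  have hEc : ∀ z : MonoidAlgebra ℂ Γ, (∀ x, x ∉ U → z.coeff x = 0) → z * ei U χ = ei U χ * z :=
    fun z hz => ZA_comm hz hE le_rfl
  have hee := ee ZE h
  have hEE : ei U χ * ei U χ = ei U χ := by rw [zu3 χ hχ χ hχ, if_pos rfl]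
  obtain ⟨f, hfdef⟩ : ∃ f, f = ei K θ * ei U χ := ⟨_, rfl⟩
  have hf' : f = ei U χ * ei K θ := by rw [hfdef, hEc _ heU]
  have hef : ei K θ * f = f := by rw [hfdef, ← mul_assoc, hee]
  have hfe : f * ei K θ = f := by rw [hf', mul_assoc, hee]
  have hfE : f * ei U χ = f := by rw [hfdef, mul_assoc, hEE]
  have hEf : ei U χ * f = f := by rw [hf', ← mul_assoc, hEE]
  have hff : f * f = f := by
    have h1 : f * f = ei K θ * (ei U χ * f) := by rw [← mul_assoc, ← hfdef]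
    rw [h1, hEf, hef]
  have hfc : f = ei K θ * cst (stab U θ) 1 (ei U χ) := by
    rw [← eze ZE h hE.1, ← hfdef, hfe]
  have hfT : f ∈ ZA ℂ (stab U θ) (stab U θ) := by
    rw [hfc]
    exact (ZA ℂ (stab U θ) (stab U θ)).mul_mem heT (cst_mem leTU hE)
  have hf0 : f ≠ 0 := by
    rw [hfdef]
    exact ((zf3 θ h.ir).1).1 hov
  -- existence
  obtain ⟨ψ, hψ, hψf⟩ : ∃ ψ ∈ IrrS (stab U θ), f * ei (stab U θ) ψ ≠ 0 := by
    by_contra hcon
    push Not at hcon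
    exact hf0 (zt4 f hfT.1 hcon)
  have hone : ∀ ψ' ∈ IrrS (stab U θ), f * ei (stab U θ) ψ' = 0 ∨
      f * ei (stab U θ) ψ' = ei (stab U θ) ψ' := by
    intro ψ' hψ'
    exact smul_one_or (zt1 ψ' hψ').2 hff (zt2 ψ' hψ' f hfT)
  have hTE : ∀ z : MonoidAlgebra ℂ Γ, z ∈ ZA ℂ (stab U θ) (stab U θ) →
      z * ei U χ = ei U χ * z := fun z hz => hEc z (fun x hx => hz.1 x (fun ht => hx ht.1))
  -- properties of the constituents
  have hprop : ∀ ψ' ∈ IrrS (stab U θ), f * ei (stab U θ) ψ' = ei (stab U θ) ψ' →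
      ei (stab U θ) ψ' * ei K θ = ei (stab U θ) ψ' ∧
      ei K θ * ei (stab U θ) ψ' = ei (stab U θ) ψ' ∧
      ei (stab U θ) ψ' * ei U χ = ei (stab U θ) ψ' ∧
      ei U χ * ei (stab U θ) ψ' = ei (stab U θ) ψ' := by
    intro ψ' hψ' hfw
    have hwT := (zt1 ψ' hψ').1
    have h1 : ei K θ * ei (stab U θ) ψ' = ei (stab U θ) ψ' := by
      rw [← hfw, ← mul_assoc, hef]
    have h2 : ei U χ * ei (stab U θ) ψ' = ei (stab U θ) ψ' := by
      rw [← hfw, ← mul_assoc]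
      rw [hf', ← mul_assoc, hEE]
    refine ⟨?_, h1, ?_, h2⟩
    · rw [ZA_mul_comm le_rfl hwT heT, h1]
    · rw [hTE _ hwT, h2]
  have hSE : ∀ w : MonoidAlgebra ℂ Γ, w ∈ ZA ℂ (stab U θ) (stab U θ) → w * ei U χ = w →
      ∃ c : ℂ, (∑ u : U, cn (u : Γ) w) = c • ei U χ := by
    intro w hw hwE
    have hwU : ∀ x, x ∉ U → w.coeff x = 0 := fun x hx => hw.1 x (fun ht => hx ht.1)
    have hSm : (∑ u : U, cn (u : Γ) w) ∈ ZA ℂ U U := Pool.Agent.H59.T2.sum_cn_mem hwU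
    refine ⟨ev χ (∑ u : U, cn (u : Γ) w) / χ 1, ?_⟩
    rw [← zu2 χ hχ _ hSm, Finset.sum_mul]
    refine Finset.sum_congr rfl fun u _ => ?_
    conv_lhs => rw [← hwE]
    rw [Pool.Agent.H59.T2.cn_mul, Pool.Agent.H59.T2.cn_of_mem hE u.2]
  have hcT : (Nat.card (stab U θ) : ℂ) ≠ 0 := Nat.cast_ne_zero.2 Nat.card_pos.ne'
  have hcU : (Nat.card U : ℂ) ≠ 0 := Nat.cast_ne_zero.2 Nat.card_pos.ne'
  -- uniqueness
  have huniq : ∀ ψ₁ ∈ IrrS (stab U θ), ∀ ψ₂ ∈ IrrS (stab U θ),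
      f * ei (stab U θ) ψ₁ = ei (stab U θ) ψ₁ → f * ei (stab U θ) ψ₂ = ei (stab U θ) ψ₂ →
      ψ₁ = ψ₂ := by
    intro ψ₁ h₁ ψ₂ h₂ hf₁ hf₂
    by_contra hne
    obtain ⟨p1, p2, p3, p4⟩ := hprop ψ₁ h₁ hf₁
    obtain ⟨q1, q2, q3, q4⟩ := hprop ψ₂ h₂ hf₂
    obtain ⟨c, hc⟩ := hSE _ (zt1 ψ₁ h₁).1 p3
    have h3 := sum_mul ZE h (zt1 ψ₁ h₁).1 p1 q2
    rw [zt3 ψ₁ h₁ ψ₂ h₂, if_neg hne, smul_zero, hc, smul_mul_assoc, q4] at h3
    rcases smul_eq_zero.1 h3 with h4 | h4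
    · have h5 := sum_one (U := U) (ei (stab U θ) ψ₁)
      rw [hc, h4, zero_smul, MonoidAlgebra.coeff_zero, Finsupp.zero_apply] at h5
      exact (mul_ne_zero hcU (ei_one_ne h₁)) h5.symm
    · exact (zt1 ψ₂ h₂).2 h4
  have hfψ : f * ei (stab U θ) ψ = ei (stab U θ) ψ := (hone ψ hψ).resolve_left hψf
  have hfeq : f = ei (stab U θ) ψ := by
    rw [← sub_eq_zero]
    refine zt4 _ ((ZA ℂ (stab U θ) (stab U θ)).sub_mem hfT (zt1 ψ hψ).1).1 ?_
    intro ψ' hψ'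
    rw [sub_mul, zt3 ψ hψ ψ' hψ']
    by_cases he : ψ = ψ'
    · rw [if_pos he, ← he, hfψ, sub_self]
    · rw [if_neg he, sub_zero]
      rcases hone ψ' hψ' with h3 | h3
      · exact h3
      · exact absurd (huniq ψ hψ ψ' hψ' hfψ h3) he
  obtain ⟨p1, p2, p3, p4⟩ := hprop ψ hψ hfψ
  have hψ1 : ψ 1 ≠ 0 := by
    obtain ⟨-, -, ⟨d, hd0, hd⟩, -⟩ := fS1 Γ _ ψ hψ
    rw [hd]
    exact Nat.cast_ne_zero.2 hd0.ne'
  have hovψ : Over χ ψ := by
    rw [over_iff hψ, ← hfeq, hfdef, (zf2 _ heU).1]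
    exact (over_iff h.ir).1 hov
  refine ⟨ψ, hψ, ?_, hovψ, ?_, ?_, ?_, ?_⟩
  · -- `Over ψ θ`
    have h1 := ((ZF Γ K (stab U θ) (niKT h) ψ hψ).2.2 θ h.ir).1
    rw [h1, p2]
    exact (zt1 ψ hψ).2
  · rw [← hfdef, hfeq]
  · -- degrees
    obtain ⟨c, hc⟩ := hSE _ (zt1 ψ hψ).1 p3
    have h3 := sum_mul ZE h (zt1 ψ hψ).1 p1 p2
    rw [hc, smul_mul_assoc, p4, zt3 ψ hψ ψ hψ, if_pos rfl] at h3
    have h4 : c = (Nat.card (stab U θ) : ℂ) := by
      have h5 : (c - (Nat.card (stab U θ) : ℂ)) • ei (stab U θ) ψ = 0 := by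
        rw [sub_smul, h3, sub_self]
      rcases smul_eq_zero.1 h5 with h6 | h6
      · exact sub_eq_zero.1 h6
      · exact absurd h6 (zt1 ψ hψ).2
    have h5 := sum_one (U := U) (ei (stab U θ) ψ)
    rw [hc, h4, MonoidAlgebra.coeff_smul, Finsupp.smul_apply, smul_eq_mul, ei_one hχ,
      ei_one hψ] at h5
    obtain ⟨-, -, ⟨a, ha0, ha⟩, -⟩ := fS1 Γ _ χ hχ
    obtain ⟨-, -, ⟨b, hb0, hb⟩, -⟩ := fS1 Γ _ ψ hψ
    rw [ha, hb] at h5 ⊢
    have h6 : ((a : ℂ) * (Nat.card (stab U θ) : ℂ)) ^ 2 = ((Nat.card U : ℂ) * b) ^ 2 := by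
      field_simp at h5
      linear_combination h5
    have h7 : (a * Nat.card (stab U θ)) ^ 2 = (Nat.card U * b) ^ 2 := by exact_mod_cast h6
    have h8 : a * Nat.card (stab U θ) = Nat.card U * b :=
      Nat.pow_left_injective (n := 2) (by norm_num) h7
    have h9 : Nat.card (stab U θ) * (stab U θ).relIndex U = Nat.card U := by
      have h10 := Subgroup.relIndex_mul_relIndex (⊥ : Subgroup Γ) (stab U θ) U bot_le leTU
      rwa [Subgroup.relIndex_bot_left, Subgroup.relIndex_bot_left] at h10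
    rw [← h9] at h8
    have h11 : a = (stab U θ).relIndex U * b := by
      have h12 : Nat.card (stab U θ) * a = Nat.card (stab U θ) * ((stab U θ).relIndex U * b) := by
        rw [mul_comm, h8, mul_assoc]
      exact Nat.eq_of_mul_eq_mul_left Nat.card_pos h12
    rw [h11]
    push_cast
    ring
  · -- uniqueness
    intro ψ' hψ' hov' hχψ'
    have hwT := (zt1 ψ' hψ').1
    have hinv : ∀ u ∈ stab U θ, cj u θ = θ := fun u hu => hu.2
    have h1 := ((ZF Γ K (stab U θ) (niKT h) ψ' hψ').2.2 θ h.ir).2 hinv hov'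
    have hwU : ∀ x, x ∉ U → (ei (stab U θ) ψ').coeff x = 0 :=
      fun x hx => hwT.1 x (fun ht => hx ht.1)
    have h2 : ei (stab U θ) ψ' * ei U χ ≠ 0 := by
      intro h3
      have h4 := (zf2 _ hwU).1
      rw [h3, Pool.Agent.H59.T2.ev_zero] at h4
      exact (over_iff hψ').1 hχψ' h4.symm
    have h3 : f * ei (stab U θ) ψ' = ei U χ * ei (stab U θ) ψ' := by
      rw [hf', mul_assoc, h1]
    rw [hTE _ hwT, ← h3] at h2
    exact (huniq ψ hψ ψ' hψ' hfψ ((hone ψ' hψ').resolve_left h2)).symm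
  · -- central characters
    intro z hz
    have hzc := cst_mem (T := stab U θ) leTU hz
    have hze : z * ei K θ = ei K θ * z := (ZA_comm heU hz le_rfl).symm
    have h1 : z * f = (ev χ z / χ 1) • f := by
      rw [hf', ← mul_assoc, zu2 χ hχ z hz, smul_mul_assoc]
    have h2 : z * f = (ev ψ (cst (stab U θ) 1 z) / ψ 1) • f := by
      have h3 : z * ei K θ = ei K θ * cst (stab U θ) 1 z := by
        rw [← eze ZE h hz.1, ← hze, mul_assoc, hee]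
      have h4 : z * f = (cst (stab U θ) 1 z) * f := by
        conv_lhs => rw [← hef]
        rw [← mul_assoc, h3, ZA_mul_comm le_rfl heT hzc, mul_assoc, hef]
      rw [h4, hfeq, zt2 ψ hψ _ hzc]
    have h3 : (ev χ z / χ 1 - ev ψ (cst (stab U θ) 1 z) / ψ 1) • f = 0 := by
      rw [sub_smul, ← h1, ← h2, sub_self]
    rcases smul_eq_zero.1 h3 with h4 | h4
    · exact sub_eq_zero.1 h4
    · exact absurd h4 hf0

end

theorem cc (_VM : T_VM) (ZE : T_ZE) (ZF : T_ZF) (OT : T_OT) : T_CC := by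
  intro Γ _ _ K U hn θ hθ
  have h : Dt K U θ := ⟨hn, hθ⟩
  refine ⟨fun χ hχ hov => part1 ZE ZF h hχ hov, ?_⟩
  intro ψ hψ hov
  obtain ⟨χ, hχ, hχψ⟩ := fE4 Γ (stab U θ) U leTU ψ hψ
  have hot : ∀ χ' ∈ IrrS U, Over χ' ψ → Over χ' θ := by
    intro χ' hχ' h1
    exact (OT Γ K (stab U θ) U (leKT h) leTU χ' hχ' θ hθ).2 ⟨ψ, hψ, h1, hov⟩
  have hχθ := hot χ hχ hχψ
  refine ⟨χ, hχ, hχψ, hχθ, ?_⟩
  intro χ' hχ' hχ'ψ
  have hχ'θ := hot χ' hχ' hχ'ψ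
  obtain ⟨ψ₁, -, -, -, h1, -, h1u, -⟩ := part1 ZE ZF h hχ hχθ
  obtain ⟨ψ₂, -, -, -, h2, -, h2u, -⟩ := part1 ZE ZF h hχ' hχ'θ
  have e1 := h1u ψ hψ hov hχψ
  have e2 := h2u ψ hψ hov hχ'ψ
  rw [← e1] at h1
  rw [← e2] at h2
  by_contra hne
  obtain ⟨zt1, -, zt3, -, -⟩ := ZE Γ (stab U θ)
  obtain ⟨zu1, -, zu3, -, -⟩ := ZE Γ U
  have heT := eT ZE h
  have heU : ∀ x, x ∉ U → (ei K θ).coeff x = 0 := fun x hx => heT.1 x (fun ht => hx ht.1)
  have h3 : ei (stab U θ) ψ * ei (stab U θ) ψ = ei (stab U θ) ψ := by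
    rw [zt3 ψ hψ ψ hψ, if_pos rfl]
  have h4 : ei (stab U θ) ψ * ei (stab U θ) ψ = 0 := by
    have h5 : ei (stab U θ) ψ * ei (stab U θ) ψ =
        (ei K θ * ei U χ) * (ei K θ * ei U χ') := by rw [h1, h2]
    rw [h5, mul_assoc, ← mul_assoc (ei U χ), ← ZA_comm heU (zu1 χ hχ).1 le_rfl, mul_assoc,
      zu3 χ hχ χ' hχ', if_neg (Ne.symm hne), mul_zero, mul_zero]
  rw [h3] at h4
  exact (zt1 ψ hψ).2 h4

end Pool.Agent.H18.T2.CC
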