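import Pool.Agent.H18.MR.Seq

/-!
# [EN2], part 2: summed form of the sequence lemma behind the entropy decrement argument
-/

namespace Pool.Agent.H18.T2

open Finset Filter
open Pool.Agent.H18.MR

theorem exists_start (C : ℕ) (hC : 2 ≤ C) :
    ∃ j1 : ℕ, ∀ j, j1 ≤ j → C ^ (j + 1) + (C + 1) * (j + 1) ≤ C ^ (j + 2) := by
  have hpow : ∀ᶠ j : ℕ in atTop, (C + 1) * (j + 1) ≤ C ^ (j + 1) := by
    have ht := tendsto_pow_const_div_const_pow_of_one_lt 1 (by norm_num : (1:ℝ) < 2)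
    have hD' : (0:ℝ) < 1 / ((C + 1 : ℕ) : ℝ) := by positivity
    have h1 := (ht.eventually (gt_mem_nhds hD'))
    have h2 := (tendsto_add_atTop_nat 1).eventually h1
    filter_upwards [h2] with j hj
    have hp : (0:ℝ) < 2 ^ (j + 1) := by positivity
    rw [pow_one, div_lt_div_iff₀ hp (by positivity)] at hj
    have h3 : ((C + 1 : ℕ) : ℝ) * ((j + 1 : ℕ) : ℝ) ≤ (2:ℝ) ^ (j + 1) := by linarith
    have h4 : (C + 1) * (j + 1) ≤ 2 ^ (j + 1) := by exact_mod_cast h3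
    exact h4.trans (Nat.pow_le_pow_left hC _)
  obtain ⟨j1, hj1⟩ := eventually_atTop.1 hpow
  refine ⟨j1, fun j hj => ?_⟩
  have h1 := hj1 j hj
  have : C ^ (j + 2) = C * C ^ (j + 1) := by ring
  nlinarith [Nat.mul_le_mul_right (C ^ (j + 1)) hC]

theorem sum_telescope (g : ℕ → ℝ) (A J : ℕ) (h : A ≤ J) :
    ∑ j ∈ Ico A J, (g j - g (j + 2)) = g A + g (A + 1) - (g J + g (J + 1)) := by
  induction J, h using Nat.le_induction with
  | base => simp
  | succ J hJ ih => rw [Finset.sum_Ico_succ_top hJ, ih]; ring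

theorem sum_half_pow_le (A J : ℕ) : ∑ j ∈ Ico A J, (1:ℝ) / 2 ^ (j + 1) ≤ 1 := by
  have h1 : ∑ j ∈ Ico A J, (1:ℝ) / 2 ^ (j + 1) ≤ ∑ j ∈ range J, (1:ℝ) / 2 ^ (j + 1) := by
    apply Finset.sum_le_sum_of_subset_of_nonneg
    · intro j hj
      exact Finset.mem_range.2 (Finset.mem_Ico.1 hj).2
    · intros; positivity
  have h2 : ∀ n : ℕ, ∑ j ∈ range n, (1:ℝ) / 2 ^ (j + 1) = 1 - 1 / 2 ^ n := by
    intro n
    induction n with
    | zero => simp
    | succ n ih => rw [Finset.sum_range_succ, ih]; field_simp; ring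
  rw [h2] at h1
  have : (0:ℝ) < 1 / 2 ^ J := by positivity
  linarith

theorem sum_blocks (C : ℕ) (hC : 2 ≤ C) (f : ℕ → ℝ) (A J : ℕ) (h : A ≤ J) :
    ∑ m ∈ Ico (C ^ A) (C ^ J), f m = ∑ j ∈ Ico A J, ∑ m ∈ Ico (C ^ j) (C ^ (j + 1)), f m := by
  induction J, h using Nat.le_induction with
  | base => simp
  | succ J hJ ih =>
    rw [Finset.sum_Ico_succ_top hJ, ← ih, Finset.sum_Ico_consecutive]
    · exact Nat.pow_le_pow_right (by omega) hJ
    · exact Nat.pow_le_pow_right (by omega) (Nat.le_succ J)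

/-- The summed entropy decrement: the bound does not depend on the number of blocks. -/
theorem weighted_sum_le (h I : ℕ → ℝ) (hpos : ∀ m, 0 ≤ h m) (hanti : Antitone h) (E : ℝ)
    (hE : 0 ≤ E) (hdec : ∀ m s, h (m + s) ≤ h m - I m + E / 2 ^ s) (C : ℕ) (hC : 2 ≤ C)
    (H : ℝ) (hH : ∀ m, h m ≤ H) (j1 : ℕ)
    (hj1 : ∀ j, j1 ≤ j → C ^ (j + 1) + (C + 1) * (j + 1) ≤ C ^ (j + 2)) (J : ℕ) (hJ : j1 ≤ J) :
    ∑ j ∈ Ico j1 J, (1 / ((j : ℝ) + 1)) * ∑ m ∈ Ico (C ^ j) (C ^ (j + 1)), I m ≤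
      2 * (C + 1) * H + E := by
  set g : ℕ → ℝ := fun j => h (C ^ j) with hg
  have step : ∀ j ∈ Ico j1 J, (1 / ((j : ℝ) + 1)) * ∑ m ∈ Ico (C ^ j) (C ^ (j + 1)), I m ≤
      (C + 1) * (g j - g (j + 2)) + E * (1 / 2 ^ (j + 1)) := by
    intro j hj
    have hj' := (Finset.mem_Ico.1 hj).1
    set s : ℕ := (C + 1) * (j + 1) with hs
    have hle : C ^ j ≤ C ^ (j + 1) := Nat.pow_le_pow_right (by omega) (by omega)
    have h2 : ∑ m ∈ Ico (C ^ j) (C ^ (j + 1)), I m ≤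
        ∑ m ∈ Ico (C ^ j) (C ^ (j + 1)), ((h m - h (m + s)) + E / 2 ^ s) := by
      apply Finset.sum_le_sum
      intro m _
      have := hdec m s
      linarith
    rw [Finset.sum_add_distrib, sum_Ico_sub_shift h _ _ _ hle] at h2
    have h3 : ∑ i ∈ range s, (h (C ^ j + i) - h (C ^ (j + 1) + i)) ≤
        ∑ i ∈ range s, (g j - g (j + 2)) := by
      apply Finset.sum_le_sum
      intro i hi
      have hi' := Finset.mem_range.1 hi
      have a1 : h (C ^ j + i) ≤ h (C ^ j) := hanti (by omega)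
      have a2 : h (C ^ (j + 2)) ≤ h (C ^ (j + 1) + i) := hanti (by
        have := hj1 j hj'
        omega)
      simp only [hg]
      linarith
    simp only [Finset.sum_const, Finset.card_range, nsmul_eq_mul, Nat.card_Ico] at h2 h3
    have h4 : ((C ^ (j + 1) - C ^ j : ℕ) : ℝ) * (E / 2 ^ s) ≤ E * (1 / 2 ^ (j + 1)) := by
      have c1 : ((C ^ (j + 1) - C ^ j : ℕ) : ℝ) ≤ (2:ℝ) ^ (C * (j + 1)) := by
        have : C ^ (j + 1) - C ^ j ≤ 2 ^ (C * (j + 1)) := by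
          calc C ^ (j + 1) - C ^ j ≤ C ^ (j + 1) := Nat.sub_le _ _
            _ ≤ (2 ^ C) ^ (j + 1) := Nat.pow_le_pow_left (Nat.lt_two_pow_self).le _
            _ = 2 ^ (C * (j + 1)) := by rw [← pow_mul]
        exact_mod_cast this
      have c2 : (0:ℝ) ≤ E / 2 ^ s := by positivity
      calc ((C ^ (j + 1) - C ^ j : ℕ) : ℝ) * (E / 2 ^ s)
          ≤ (2:ℝ) ^ (C * (j + 1)) * (E / 2 ^ s) := by gcongr
        _ = E * (1 / 2 ^ (j + 1)) := by
            have e : s = C * (j + 1) + (j + 1) := by rw [hs]; ring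
            rw [e, pow_add]
            field_simp
    have hj0 : (0:ℝ) < (j : ℝ) + 1 := by positivity
    have hsr : (s : ℝ) = (C + 1) * ((j : ℝ) + 1) := by rw [hs]; push_cast; ring
    have h5 : ∑ m ∈ Ico (C ^ j) (C ^ (j + 1)), I m ≤
        (C + 1) * ((j : ℝ) + 1) * (g j - g (j + 2)) + E * (1 / 2 ^ (j + 1)) := by
      rw [hsr] at h3
      linarith
    have h6 : (1 / ((j : ℝ) + 1)) * (E * (1 / 2 ^ (j + 1))) ≤ E * (1 / 2 ^ (j + 1)) := by
      have a1 : (1 / ((j : ℝ) + 1)) ≤ 1 := by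
        rw [div_le_one hj0]
        have : (0:ℝ) ≤ j := Nat.cast_nonneg j
        linarith
      have a2 : 0 ≤ E * (1 / 2 ^ (j + 1)) := by positivity
      calc _ ≤ 1 * (E * (1 / 2 ^ (j + 1))) := by gcongr
        _ = _ := one_mul _
    calc (1 / ((j : ℝ) + 1)) * ∑ m ∈ Ico (C ^ j) (C ^ (j + 1)), I m
        ≤ (1 / ((j : ℝ) + 1)) *
          ((C + 1) * ((j : ℝ) + 1) * (g j - g (j + 2)) + E * (1 / 2 ^ (j + 1))) := by
          gcongr
      _ = (C + 1) * (g j - g (j + 2)) + (1 / ((j : ℝ) + 1)) * (E * (1 / 2 ^ (j + 1))) := by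
          field_simp
      _ ≤ _ := by linarith
  refine (Finset.sum_le_sum step).trans ?_
  rw [Finset.sum_add_distrib, ← Finset.mul_sum, ← Finset.mul_sum, sum_telescope g j1 J hJ]
  have e1 : g j1 ≤ H := hH _
  have e2 : g (j1 + 1) ≤ H := hH _
  have e3 : 0 ≤ g J := hpos _
  have e4 : 0 ≤ g (J + 1) := hpos _
  have e5 : E * ∑ j ∈ Ico j1 J, (1:ℝ) / 2 ^ (j + 1) ≤ E := by
    calc _ ≤ E * 1 := by
          gcongr
          exact sum_half_pow_le j1 J
      _ = E := mul_one E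
  have e6 : ((C:ℝ) + 1) * (g j1 + g (j1 + 1) - (g J + g (J + 1))) ≤ (C + 1) * (2 * H) := by
    gcongr
    linarith
  linarith

end Pool.Agent.H18.T2
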