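import Pool.Agent.H18.T2.PrimeRel
import Pool.Agent.H18.T2.SeqSum
import Pool.Agent.H62.MR.ME

/-!
# Module [EN2] of T2: entropy decrement for most scales, uniformly in the measure
-/

namespace Pool.Agent.H18.T2

open Finset Filter
open Pool.Agent.H24.MR Pool.Agent.H59.MR Pool.Agent.H18.MR
open Pool.Agent.H24.T2 (rel Dec StatementEN2)

/-- the length (divided by `Q`) of the blocks at scale `m` -/
def nn (Q K : ℕ) (m : ℕ) : ℕ := (Q + K) * 2 ^ (m + 1)

theorem dec_of_mi {ν : Set ℕ → ℝ} (hν : FinAddInv ν) (a : ℕ → ℝ)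
    (ha : ∀ n, a n = 1 ∨ a n = -1) {Q : ℕ} (hQ : 0 < Q) (u0 : ℕ) {k : ℕ} (β : Fin k → ℕ) (K : ℕ)
    (hβ : ∀ i, β i ≤ K) (θ : ℝ) (hθ : 0 < θ) (m : ℕ)
    (hI : miN (condP ν hν Q u0 hQ) (blk a Q (nn Q K m)) (∏ p ∈ Pset Q m, p) ≤
      θ ^ 2 / 2 * (Pset Q m).card) :
    Dec β ν a Q u0 θ m := by
  classical
  set μ := condP ν hν Q u0 hQ with hμ
  have hQ0 : (0:ℝ) < Q := by exact_mod_cast hQ
  refine ⟨(Pset Q m).filter (fun p => ¬ miN μ (blk a Q (nn Q K m)) p ≤ θ / 2), ?_, ?_⟩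
  · have h1 := sum_miN_le hν hQ (u0 := u0) (blk a Q (nn Q K m)) (Pset Q m)
      (fun p hp => (mem_Pset.1 hp).2.1) (fun p hp => coprime_of_mod_one (mem_Pset.1 hp).2.2)
    rw [← hμ] at h1
    have h2 := h1.trans hI
    have h3 : ∑ p ∈ (Pset Q m).filter (fun p => ¬ miN μ (blk a Q (nn Q K m)) p ≤ θ / 2),
        θ / 2 ≤ ∑ p ∈ Pset Q m, miN μ (blk a Q (nn Q K m)) p := by
      calc _ ≤ ∑ p ∈ (Pset Q m).filter (fun p => ¬ miN μ (blk a Q (nn Q K m)) p ≤ θ / 2),
            miN μ (blk a Q (nn Q K m)) p := by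
            apply Finset.sum_le_sum
            intro p hp
            exact (not_le.1 (Finset.mem_filter.1 hp).2).le
        _ ≤ _ := Finset.sum_le_sum_of_subset_of_nonneg (Finset.filter_subset _ _)
            (fun p _ _ => miN_nonneg μ _ p)
    rw [Finset.sum_const, nsmul_eq_mul] at h3
    have h7 := h3.trans h2
    have h8 : θ / 2 * (((Pset Q m).filter
        (fun p => ¬ miN μ (blk a Q (nn Q K m)) p ≤ θ / 2)).card : ℝ) ≤
        θ / 2 * (θ * (Pset Q m).card) := by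
      calc _ = (((Pset Q m).filter
            (fun p => ¬ miN μ (blk a Q (nn Q K m)) p ≤ θ / 2)).card : ℝ) * (θ / 2) := mul_comm _ _
        _ ≤ _ := h7
        _ = _ := by ring
    exact le_of_mul_le_mul_left h8 (by positivity)
  · intro p hp hpX σ
    have hp' : p ∈ Pset Q m := hp
    have hp1 := mem_Pset.1 hp'
    have hp2 : miN μ (blk a Q (nn Q K m)) p ≤ θ / 2 := by
      by_contra hcon
      exact hpX (Finset.mem_filter.2 ⟨hp', hcon⟩)
    have : NeZero p := ⟨hp1.2.1.ne_zero⟩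
    have hlen : p * (Q + K) ≤ Q * nn Q K m := by
      simp only [nn]
      calc p * (Q + K) ≤ 2 ^ (m + 1) * (Q + K) := Nat.mul_le_mul_right _ hp1.1.2
        _ = 1 * ((Q + K) * 2 ^ (m + 1)) := by ring
        _ ≤ Q * ((Q + K) * 2 ^ (m + 1)) := Nat.mul_le_mul_right _ hQ
    have h := prime_rel hν hQ (u0 := u0) a ha σ β K (nn Q K m) p hβ
      (coprime_of_mod_one hp1.2.2) hlen
    rw [← hμ, hμ, condP_apply] at h
    simp only [Set.mem_ofPred_eq] at h
    rw [← hμ] at h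
    have he : (1:ℝ) / 2 ≤ 1 - Real.exp (-1) := by
      have h1 : Real.exp (-1) ≤ 1 / 2 := by
        rw [Real.exp_neg, ← one_div]
        apply one_div_le_one_div_of_le (by norm_num)
        have := Real.exp_one_gt_d9
        linarith
      linarith
    have hd := hν.nonneg {y | y ≡ u0 [MOD Q] ∧ rel β a p y ≠ σ}
    have hd2 := hν.nonneg {y | y ≡ u0 [MOD Q] ∧ p ∣ y ∧ rel β a p y ≠ σ}
    have hp0 : (0:ℝ) ≤ p := Nat.cast_nonneg p
    have h1 : (1:ℝ) / 2 * (Q * ν {y | y ≡ u0 [MOD Q] ∧ rel β a p y ≠ σ}) ≤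
        θ / 2 + p * (Q * ν {y | y ≡ u0 [MOD Q] ∧ p ∣ y ∧ rel β a p y ≠ σ}) := by
      calc _ ≤ (1 - Real.exp (-1)) *
            (Q * ν {y | y ≡ u0 [MOD Q] ∧ rel β a p y ≠ σ}) := by
            gcongr
        _ ≤ _ := h
        _ ≤ _ := by linarith
    have h2 : Q * ν {y | y ≡ u0 [MOD Q] ∧ rel β a p y ≠ σ} ≤
        Q * (10 * (p * ν {y | y ≡ u0 [MOD Q] ∧ p ∣ y ∧ rel β a p y ≠ σ}) + θ / Q) := by
      have e : Q * (10 * (p * ν {y | y ≡ u0 [MOD Q] ∧ p ∣ y ∧ rel β a p y ≠ σ}) + θ / Q) =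
          10 * (p * (Q * ν {y | y ≡ u0 [MOD Q] ∧ p ∣ y ∧ rel β a p y ≠ σ})) + θ := by
        field_simp
      rw [e]
      have h3 : 0 ≤ p * (Q * ν {y | y ≡ u0 [MOD Q] ∧ p ∣ y ∧ rel β a p y ≠ σ}) := by positivity
      linarith
    exact le_of_mul_le_mul_left h2 hQ0

theorem nn_add (Q K m s : ℕ) : nn Q K (m + s) = 2 ^ s * nn Q K m := by
  simp only [nn]
  ring

theorem nn_pos {Q K : ℕ} (hQ : 0 < Q) (m : ℕ) : (0:ℝ) < nn Q K m := by
  have : 0 < nn Q K m := by unfold nn; positivity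
  exact_mod_cast this

/-- the weight of the scale `m` -/
noncomputable def W (C Q m : ℕ) : ℝ :=
  (1 / ((Nat.log C m : ℝ) + 1)) * (((Pset Q m).card : ℝ) / 2 ^ m)

theorem W_nonneg (C Q m : ℕ) : 0 ≤ W C Q m := by unfold W; positivity

theorem log_block {C j m : ℕ} (hm : m ∈ Ico (C ^ j) (C ^ (j + 1))) :
    Nat.log C m = j := by
  have := Finset.mem_Ico.1 hm
  exact Nat.log_eq_of_pow_le_of_lt_pow this.1 this.2

/-- the total weight of the bad scales is bounded independently of the number of scales -/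
theorem bad_sum_le (C : ℕ) (hC : 2 ≤ C) {ν : Set ℕ → ℝ} (hν : FinAddInv ν) (a : ℕ → ℝ)
    (ha : ∀ n, a n = 1 ∨ a n = -1) {Q : ℕ} (hQ : 0 < Q) (u0 : ℕ) {k : ℕ} (β : Fin k → ℕ) (K : ℕ)
    (hβ : ∀ i, β i ≤ K) (θ : ℝ) (hθ : 0 < θ) (j1 : ℕ)
    (hj1 : ∀ j, j1 ≤ j → C ^ (j + 1) + (C + 1) * (j + 1) ≤ C ^ (j + 2)) (J : ℕ) (hJ : j1 ≤ J)
    (Bad : Finset ℕ) (hB : Bad ⊆ Ico (C ^ j1) (C ^ J)) (hbad : ∀ m ∈ Bad, ¬ Dec β ν a Q u0 θ m) :
    θ ^ 2 / (4 * (Q + K)) * ∑ m ∈ Bad, W C Q m ≤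
      2 * (C + 1) * (Q * Real.log 2) + Real.log 4 := by
  classical
  set μ := condP ν hν Q u0 hQ with hμ
  set h : ℕ → ℝ := fun m => ent μ (blk a Q (nn Q K m)) / nn Q K m with hh
  set I : ℕ → ℝ := fun m => miN μ (blk a Q (nn Q K m)) (∏ p ∈ Pset Q m, p) / nn Q K m with hI
  have hQ0 : (0:ℝ) < Q := by exact_mod_cast hQ
  have hnn0 : ∀ m, (0:ℝ) < nn Q K m := nn_pos hQ
  have hpos : ∀ m, 0 ≤ h m := fun m => div_nonneg (ent_nonneg μ _) (hnn0 m).le
  have hIpos : ∀ m, 0 ≤ I m := fun m => div_nonneg (miN_nonneg μ _ _) (hnn0 m).le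
  have hlog4 : 0 ≤ Real.log 4 := Real.log_nonneg (by norm_num)
  have hH : ∀ m, h m ≤ Q * Real.log 2 := by
    intro m
    simp only [hh]
    rw [div_le_iff₀ (hnn0 m)]
    refine (ent_le_log_card μ _).trans ?_
    rw [Fintype.card_fun, Fintype.card_bool, Fintype.card_fin]
    push_cast
    rw [Real.log_pow]
    push_cast
    exact le_of_eq (by ring)
  have hdec : ∀ m s, h (m + s) ≤ h m - I m + Real.log 4 / 2 ^ s := by
    intro m s
    have : NeZero (∏ p ∈ Pset Q m, p) := ⟨prod_Pset_ne_zero Q m⟩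
    have h1 := ent_blk_decr hν hQ (u0 := u0) a (nn Q K m) (∏ p ∈ Pset Q m, p)
      (Nat.Coprime.prod_right fun p hp => coprime_of_mod_one (mem_Pset.1 hp).2.2) (2 ^ s)
    rw [← hμ] at h1
    have h2 := log_prod_Pset_le Q m
    have e : ent μ (blk a Q (nn Q K (m + s))) = ent μ (blk a Q (2 ^ s * nn Q K m)) := by
      rw [nn_add]
    have h3 : (nn Q K (m + s) : ℝ) = 2 ^ s * nn Q K m := by rw [nn_add]; push_cast; ring
    simp only [hh, hI]
    rw [e, h3, div_le_iff₀ (by have := hnn0 m; positivity)]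
    have h4 : (2:ℝ) ^ (m + 1) ≤ nn Q K m := by
      have : 2 ^ (m + 1) ≤ nn Q K m := by
        simp only [nn]
        exact Nat.le_mul_of_pos_left _ (by omega)
      exact_mod_cast this
    have h5 : (2:ℝ) ^ (m + 1) * Real.log 4 ≤ nn Q K m * Real.log 4 := by gcongr
    have h6 : (ent μ (blk a Q (nn Q K m)) / (nn Q K m : ℝ) -
        miN μ (blk a Q (nn Q K m)) (∏ p ∈ Pset Q m, p) / (nn Q K m : ℝ) + Real.log 4 / 2 ^ s) *
        (2 ^ s * nn Q K m) = 2 ^ s * (ent μ (blk a Q (nn Q K m)) -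
        miN μ (blk a Q (nn Q K m)) (∏ p ∈ Pset Q m, p)) + nn Q K m * Real.log 4 := by
      have := (hnn0 m).ne'
      field_simp
      try ring
    rw [h6]
    push_cast at h1 h2
    linarith
  have hanti : Antitone h := by
    apply antitone_nat_of_succ_le
    intro m
    have h1 := ent_blk_decr hν hQ (u0 := u0) a (nn Q K m) 1 (Nat.coprime_one_right Q) (2 ^ 1)
    rw [← hμ] at h1
    have e : ent μ (blk a Q (nn Q K (m + 1))) = ent μ (blk a Q (2 ^ 1 * nn Q K m)) := by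
      rw [nn_add]
    have h3 : (nn Q K (m + 1) : ℝ) = 2 ^ 1 * nn Q K m := by rw [nn_add]; push_cast; ring
    have h4 := miN_nonneg μ (blk a Q (nn Q K m)) 1
    simp only [hh]
    rw [e, h3, div_le_div_iff₀ (by have := hnn0 m; positivity) (hnn0 m)]
    simp only [Nat.cast_one, Real.log_one, Nat.cast_ofNat, pow_one] at h1
    have h5 : ent μ (blk a Q (2 ^ 1 * nn Q K m)) ≤ 2 * ent μ (blk a Q (nn Q K m)) := by
      linarith
    have := hnn0 m
    nlinarith
  have main := weighted_sum_le h I hpos hanti (Real.log 4) hlog4 hdec C hC (Q * Real.log 2) hH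
    j1 hj1 J hJ
  refine le_trans ?_ main
  -- compare the bad weights with the decrements
  have e1 : ∑ j ∈ Ico j1 J, (1 / ((j : ℝ) + 1)) * ∑ m ∈ Ico (C ^ j) (C ^ (j + 1)), I m =
      ∑ m ∈ Ico (C ^ j1) (C ^ J), (1 / ((Nat.log C m : ℝ) + 1)) * I m := by
    rw [sum_blocks C hC _ j1 J hJ]
    apply Finset.sum_congr rfl
    intro j _
    rw [Finset.mul_sum]
    apply Finset.sum_congr rfl
    intro m hm
    rw [log_block hm]
  rw [e1, Finset.mul_sum]
  calc ∑ m ∈ Bad, θ ^ 2 / (4 * (Q + K)) * W C Q m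
      ≤ ∑ m ∈ Bad, (1 / ((Nat.log C m : ℝ) + 1)) * I m := by
        apply Finset.sum_le_sum
        intro m hm
        have hnd := hbad m hm
        have h1 : θ ^ 2 / 2 * (Pset Q m).card <
            miN μ (blk a Q (nn Q K m)) (∏ p ∈ Pset Q m, p) := by
          by_contra hcon
          exact hnd (dec_of_mi hν a ha hQ u0 β K hβ θ hθ m (not_lt.1 hcon))
        have h2 : θ ^ 2 / (4 * (Q + K)) * (((Pset Q m).card : ℝ) / 2 ^ m) ≤ I m := by
          simp only [hI]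
          rw [le_div_iff₀ (hnn0 m)]
          have e : θ ^ 2 / (4 * (Q + K)) * (((Pset Q m).card : ℝ) / 2 ^ m) * nn Q K m =
              θ ^ 2 / 2 * (Pset Q m).card := by
            simp only [nn]
            push_cast
            have h1 : (Q:ℝ) + K ≠ 0 := by positivity
            field_simp
            ring
          rw [e]
          exact h1.le
        calc θ ^ 2 / (4 * (Q + K)) * W C Q m
            = (1 / ((Nat.log C m : ℝ) + 1)) *
              (θ ^ 2 / (4 * (Q + K)) * (((Pset Q m).card : ℝ) / 2 ^ m)) := by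
              unfold W; ring
          _ ≤ _ := by gcongr
    _ ≤ _ := by
        apply Finset.sum_le_sum_of_subset_of_nonneg hB
        intro m _ _
        have := hIpos m
        positivity

/-- dense scales carry a weight at least `c / (2 φ(Q))` in each block -/
theorem dense_block (C : ℕ) (hC : 2 ≤ C) (c : ℝ) (hc : 0 < c) (Q : ℕ) (hQ : 0 < Q) (j : ℕ)
    (hj : c / (Nat.totient Q : ℝ) ≤
      ∑ p ∈ (Ioc (2 ^ C ^ j) ((2 ^ C ^ j) ^ C)).filter (fun p => p.Prime ∧ p ≡ 1 [MOD Q]),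
        (1 / (p : ℝ))) :
    c / (2 * Nat.totient Q) ≤
      ∑ m ∈ (Ico (C ^ j) (C ^ (j + 1))).filter
        (fun m => c / (2 * C) * 2 ^ m / (Nat.totient Q * m) ≤ ((Pset Q m).card : ℝ)),
        ((Pset Q m).card : ℝ) / 2 ^ m := by
  have hφ0 : (0:ℝ) < Nat.totient Q := by exact_mod_cast Nat.totient_pos.2 hQ
  have hC0 : (0:ℝ) < C := by exact_mod_cast (by omega : 0 < C)
  have hle : C ^ j ≤ C ^ (j + 1) := Nat.pow_le_pow_right (by omega) (by omega)
  have hpr := sum_inv_primes_le Q (C ^ j) (C ^ (j + 1)) hle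
  rw [← pow_mul, ← pow_succ] at hj
  have htot := hj.trans hpr
  rw [← Finset.sum_filter_add_sum_filter_not (Ico (C ^ j) (C ^ (j + 1)))
    (fun m => c / (2 * C) * 2 ^ m / (Nat.totient Q * m) ≤ ((Pset Q m).card : ℝ))] at htot
  have hCj0 : 0 < C ^ j := by positivity
  have hCj0' : (0:ℝ) < (C ^ j : ℕ) := by exact_mod_cast hCj0
  set S := (Ico (C ^ j) (C ^ (j + 1))).filter
    (fun m => ¬ (c / (2 * C) * 2 ^ m / (Nat.totient Q * m) ≤ ((Pset Q m).card : ℝ))) with hS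
  have hnot : ∑ m ∈ S, ((Pset Q m).card : ℝ) / 2 ^ m ≤ c / (2 * Nat.totient Q) := by
    calc ∑ m ∈ S, ((Pset Q m).card : ℝ) / 2 ^ m
        ≤ ∑ m ∈ S, c / (2 * C) / Nat.totient Q * (1 / (C ^ j : ℕ)) := by
          apply Finset.sum_le_sum
          intro m hm
          have hm1 := Finset.mem_Ico.1 (Finset.mem_filter.1 hm).1
          have h1 := (not_le.1 (Finset.mem_filter.1 hm).2).le
          have hmpos : 0 < m := by omega
          have hm' : (0:ℝ) < m := by exact_mod_cast hmpos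
          rw [div_le_iff₀ (by positivity)]
          calc ((Pset Q m).card : ℝ) ≤ c / (2 * C) * 2 ^ m / (Nat.totient Q * m) := h1
            _ ≤ c / (2 * C) * 2 ^ m / (Nat.totient Q * (C ^ j : ℕ)) := by
                have : ((C ^ j : ℕ) : ℝ) ≤ m := by exact_mod_cast hm1.1
                gcongr
            _ = c / (2 * C) / Nat.totient Q * (1 / (C ^ j : ℕ)) * 2 ^ m := by
                field_simp
      _ ≤ ∑ m ∈ Ico (C ^ j) (C ^ (j + 1)), c / (2 * C) / Nat.totient Q * (1 / (C ^ j : ℕ)) := by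
          apply Finset.sum_le_sum_of_subset_of_nonneg (Finset.filter_subset _ _)
          intros
          positivity
      _ ≤ (C:ℝ) ^ (j + 1) * (c / (2 * C) / Nat.totient Q * (1 / (C ^ j : ℕ))) := by
          rw [Finset.sum_const, Nat.card_Ico, nsmul_eq_mul]
          have h1 : ((C ^ (j + 1) - C ^ j : ℕ) : ℝ) ≤ (C:ℝ) ^ (j + 1) := by
            have : C ^ (j + 1) - C ^ j ≤ C ^ (j + 1) := Nat.sub_le _ _
            exact_mod_cast this
          gcongr
      _ = c / (2 * Nat.totient Q) := by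
          push_cast
          rw [pow_succ]
          field_simp
  have : c / (Nat.totient Q : ℝ) = c / (2 * Nat.totient Q) + c / (2 * Nat.totient Q) := by
    field_simp
    ring
  linarith

theorem en2_of_me (hME : StatementME) : StatementEN2 := by
  classical
  obtain ⟨C, c, hC, hc, hM⟩ := hME
  have hC0 : (0:ℝ) < C := by exact_mod_cast (by omega : 0 < C)
  refine ⟨c / (2 * C), by positivity, ?_⟩
  intro Q k β θ ρ m₀ hQ hθ hρ
  have hQ0 : (0:ℝ) < Q := by exact_mod_cast hQ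
  have hφ0 : (0:ℝ) < Nat.totient Q := by exact_mod_cast Nat.totient_pos.2 hQ
  set K : ℕ := ∑ i, β i with hK
  have hβ : ∀ i, β i ≤ K := fun i =>
    Finset.single_le_sum (f := β) (fun _ _ => Nat.zero_le _) (Finset.mem_univ i)
  obtain ⟨x₀, hx₀⟩ := hM Q hQ
  obtain ⟨j0, hj0⟩ := exists_start C hC
  set j1 : ℕ := max (max j0 m₀) ⌈x₀⌉₊ with hj1
  have hj1a : j0 ≤ j1 := (le_max_left _ _).trans (le_max_left _ _)
  have hj1b : m₀ ≤ j1 := (le_max_right _ _).trans (le_max_left _ _)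
  have hj1c : ⌈x₀⌉₊ ≤ j1 := le_max_right _ _
  have hjC : ∀ j, j ≤ C ^ j := fun j => (Nat.lt_pow_self (by omega)).le
  have hmert : ∀ j, j1 ≤ j → c / (Nat.totient Q : ℝ) ≤
      ∑ p ∈ (Ioc (2 ^ C ^ j) ((2 ^ C ^ j) ^ C)).filter (fun p => p.Prime ∧ p ≡ 1 [MOD Q]),
        (1 / (p : ℝ)) := by
    intro j hj
    have hx : x₀ ≤ ((2 ^ C ^ j : ℕ) : ℝ) := by
      have h1 : ⌈x₀⌉₊ ≤ 2 ^ C ^ j :=
        hj1c.trans (hj.trans ((hjC j).trans (Nat.lt_two_pow_self).le))
      exact (Nat.le_ceil x₀).trans (by exact_mod_cast h1)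
    have h := hx₀ _ hx
    have e : ⌊((2 ^ C ^ j : ℕ) : ℝ) ^ C⌋₊ = (2 ^ C ^ j) ^ C := by
      rw [← Nat.cast_pow, Nat.floor_natCast]
    rw [Nat.floor_natCast, e] at h
    exact h
  set B : ℝ := 2 * (C + 1) * (Q * Real.log 2) + Real.log 4 with hB
  set w : ℝ := θ ^ 2 / (4 * (Q + K)) with hw
  have hw0 : 0 < w := by positivity
  set D : ℕ → Prop := fun m => c / (2 * C) * 2 ^ m / (Nat.totient Q * m) ≤ ((Pset Q m).card : ℝ)
    with hD
  -- total weight
  have htot : ∀ J, j1 ≤ J → c / (2 * Nat.totient Q) * (∑ j ∈ Ico j1 J, (1 / ((j : ℝ) + 1))) ≤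
      ∑ m ∈ (Ico (C ^ j1) (C ^ J)).filter D, W C Q m := by
    intro J hJ
    rw [Finset.sum_filter, sum_blocks C hC _ j1 J hJ, Finset.mul_sum]
    apply Finset.sum_le_sum
    intro j hj
    have h1 := dense_block C hC c hc Q hQ j (hmert j (Finset.mem_Ico.1 hj).1)
    rw [← Finset.sum_filter]
    have e : ∑ m ∈ (Ico (C ^ j) (C ^ (j + 1))).filter D, W C Q m =
        (1 / ((j : ℝ) + 1)) * ∑ m ∈ (Ico (C ^ j) (C ^ (j + 1))).filter D,
          ((Pset Q m).card : ℝ) / 2 ^ m := by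
      rw [Finset.mul_sum]
      apply Finset.sum_congr rfl
      intro m hm
      unfold W
      rw [log_block (Finset.mem_filter.1 hm).1]
    rw [e, mul_comm]
    gcongr
  -- choose the number of blocks
  obtain ⟨J, hJ1, hJ2⟩ : ∃ J, j1 ≤ J ∧ (|B| + 1) / (w * min ρ 1) ≤
      ∑ m ∈ (Ico (C ^ j1) (C ^ J)).filter D, W C Q m := by
    have htop := Real.tendsto_sum_range_one_div_nat_succ_atTop
    obtain ⟨J, hJa, hJb⟩ := ((htop.eventually_ge_atTop
      ((|B| + 1) / (w * min ρ 1) / (c / (2 * Nat.totient Q)) +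
        ∑ i ∈ range j1, (1 / ((i : ℝ) + 1)))).and (eventually_ge_atTop j1)).exists
    refine ⟨J, hJb, le_trans ?_ (htot J hJb)⟩
    rw [Finset.sum_Ico_eq_sub _ hJb]
    have h0 : 0 < c / (2 * Nat.totient Q) := by positivity
    have h1 : (|B| + 1) / (w * min ρ 1) / (c / (2 * Nat.totient Q)) ≤
        ∑ i ∈ range J, (1 / ((i : ℝ) + 1)) - ∑ i ∈ range j1, (1 / ((i : ℝ) + 1)) := by linarith
    rw [div_le_iff₀ h0] at h1
    linarith
  set M := (Ico (C ^ j1) (C ^ J)).filter D with hMdef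
  set T := ∑ m ∈ M, W C Q m with hT
  have hρ1 : 0 < min ρ 1 := lt_min hρ one_pos
  have hT0 : 0 < T := lt_of_lt_of_le (by positivity) hJ2
  refine ⟨M, fun m => W C Q m / T, ?_, ?_, ?_⟩
  · intro m hm
    have h1 := Finset.mem_filter.1 hm
    have h2 := Finset.mem_Ico.1 h1.1
    refine ⟨hj1b.trans ((hjC j1).trans h2.1), h1.2, ?_⟩
    exact div_nonneg (W_nonneg C Q m) hT0.le
  · rw [← Finset.sum_div, ← hT, div_self hT0.ne']
  · intro ν hν a ha u₀ Bad hBad hnd
    have h1 := bad_sum_le C hC hν a ha hQ u₀ β K hβ θ hθ j1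
      (fun j hj => hj0 j (hj1a.trans hj)) J hJ1 Bad
      (hBad.trans (Finset.filter_subset _ _)) hnd
    rw [← hw, ← hB] at h1
    rw [← Finset.sum_div, div_le_iff₀ hT0]
    have h2 : w * ∑ m ∈ Bad, W C Q m ≤ |B| + 1 := h1.trans ((le_abs_self B).trans (by linarith))
    rw [div_le_iff₀ (by positivity)] at hJ2
    have h3 : w * ∑ m ∈ Bad, W C Q m ≤ w * (ρ * T) := by
      calc _ ≤ |B| + 1 := h2
        _ ≤ T * (w * min ρ 1) := hJ2
        _ ≤ T * (w * ρ) := by gcongr; exact min_le_left _ _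
        _ = _ := by ring
    exact le_of_mul_le_mul_left h3 hw0

/-- [EN2] holds. -/
theorem en2 : StatementEN2 := en2_of_me Pool.Agent.H62.MR.me

end Pool.Agent.H18.T2
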