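import Pool.Agent.H18.T2.MultiCount

/-!
# [PSK] (a), part 2: Selberg's upper bound for `K` linear forms `Q n + 1 + Q u`, `u ∈ U`
-/

namespace Pool.Agent.H18.T2

open Finset ArithmeticFunction BoundingSieve
open Pool.Agent.H75.PS

/-- The sieving primes. -/
def SPK (Q : ℕ) (U : Finset ℕ) (R : ℕ) : Finset ℕ :=
  (Nat.primesLE R).filter (fun p => ¬ p ∣ Q ∧ U.card < p ∧ ∀ u ∈ U, ∀ v ∈ U, u < v → ¬ p ∣ v - u)

theorem mem_SPK {Q : ℕ} {U : Finset ℕ} {R p : ℕ} : p ∈ SPK Q U R ↔
    (p ≤ R ∧ p.Prime) ∧ ¬ p ∣ Q ∧ U.card < p ∧ ∀ u ∈ U, ∀ v ∈ U, u < v → ¬ p ∣ v - u := by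
  unfold SPK
  rw [Finset.mem_filter, Nat.mem_primesLE]

theorem sqf_prod (S : Finset ℕ) (h : ∀ p ∈ S, p.Prime) : Squarefree (∏ p ∈ S, p) := by
  induction S using Finset.induction_on with
  | empty => simp
  | insert p S hp ih =>
    rw [Finset.prod_insert hp, Nat.squarefree_mul_iff]
    refine ⟨?_, (h p (Finset.mem_insert_self p S)).squarefree,
      ih (fun q hq => h q (Finset.mem_insert_of_mem hq))⟩
    apply Nat.Coprime.prod_right
    intro q hq
    exact (Nat.coprime_primes (h p (Finset.mem_insert_self p S))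
      (h q (Finset.mem_insert_of_mem hq))).mpr (fun hpq => hp (hpq ▸ hq))

theorem SPK_sqf (Q : ℕ) (U : Finset ℕ) (R : ℕ) : Squarefree (∏ p ∈ SPK Q U R, p) :=
  sqf_prod _ (fun p hp => (mem_SPK.mp hp).1.2)

theorem prime_dvd_SPK {Q : ℕ} {U : Finset ℕ} {R p : ℕ} (hp : p.Prime) :
    p ∣ ∏ p ∈ SPK Q U R, p ↔ p ∈ SPK Q U R := by
  constructor
  · intro h
    obtain ⟨q, hq, hpq⟩ := (Prime.dvd_finsetProd_iff hp.prime _).mp h
    have := (Nat.prime_dvd_prime_iff_eq hp (mem_SPK.mp hq).1.2).mp hpq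
    rwa [this]
  · intro h
    exact Finset.dvd_prod_of_mem _ h

theorem primeFactors_SPK (Q : ℕ) (U : Finset ℕ) (R : ℕ) :
    (∏ p ∈ SPK Q U R, p).primeFactors = SPK Q U R :=
  Nat.primeFactors_prod (fun _ hp => (mem_SPK.mp hp).1.2)

/-- The local densities. -/
noncomputable def nuK (K : ℕ) : ArithmeticFunction ℝ :=
  prodPrimeFactors (fun p => (K : ℝ) / (p : ℝ))

theorem nuK_mult (K : ℕ) : (nuK K).IsMultiplicative := IsMultiplicative.prodPrimeFactors _

theorem nuK_prime (K p : ℕ) (hp : p.Prime) : nuK K p = (K : ℝ) / (p : ℝ) := by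
  unfold nuK
  rw [prodPrimeFactors_apply hp.ne_zero, hp.primeFactors, Finset.prod_singleton]

/-- The value map. -/
def valU (Q : ℕ) (U : Finset ℕ) (n : ℕ) : ℕ := ∏ u ∈ U, (Q * n + 1 + Q * u)

/-- The sieve problem (with multiplicities as weights). -/
noncomputable def svK (Q : ℕ) (U : Finset ℕ) (a N R : ℕ) (hU : 0 < U.card) : BoundingSieve where
  support := (Finset.Ico a (a + N)).image (valU Q U)
  prodPrimes := ∏ p ∈ SPK Q U R, p
  prodPrimes_squarefree := SPK_sqf Q U R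
  weights := fun v => (((Finset.Ico a (a + N)).filter (fun n => valU Q U n = v)).card : ℝ)
  weights_nonneg := fun _ => Nat.cast_nonneg _
  totalMass := N
  nu := nuK U.card
  nu_mult := nuK_mult _
  nu_pos_of_prime := by
    intro p hp _
    rw [nuK_prime _ p hp]
    have : (0:ℝ) < p := by exact_mod_cast hp.pos
    have h2 : (0:ℝ) < U.card := by exact_mod_cast hU
    positivity
  nu_lt_one_of_prime := by
    intro p hp hpP
    rw [nuK_prime _ p hp]
    have h1 := (prime_dvd_SPK hp).mp hpP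
    have h3 := (mem_SPK.mp h1).2.2.1
    have h4 : (U.card : ℝ) < p := by exact_mod_cast h3
    have h5 : (0:ℝ) < p := by exact_mod_cast hp.pos
    rw [div_lt_one h5]
    exact h4

/-- sums over the support -/
theorem sum_support (Q : ℕ) (U : Finset ℕ) (a N : ℕ) (Pr : ℕ → Prop) [DecidablePred Pr] :
    ∑ v ∈ (Finset.Ico a (a + N)).image (valU Q U),
      (if Pr v then (((Finset.Ico a (a + N)).filter (fun n => valU Q U n = v)).card : ℝ) else 0) =
      (((Finset.Ico a (a + N)).filter (fun n => Pr (valU Q U n))).card : ℝ) := by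
  have h1 : ((Finset.Ico a (a + N)).filter (fun n => Pr (valU Q U n))).card =
      ∑ v ∈ (Finset.Ico a (a + N)).image (valU Q U),
        (((Finset.Ico a (a + N)).filter (fun n => Pr (valU Q U n))).filter
          (fun n => valU Q U n = v)).card := by
    apply Finset.card_eq_sum_card_fiberwise
    intro n hn
    rw [Finset.mem_coe, Finset.mem_filter] at hn
    exact Finset.mem_coe.2 (Finset.mem_image_of_mem _ hn.1)
  rw [h1]
  push_cast
  apply Finset.sum_congr rfl
  intro v _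
  split_ifs with h
  · congr 2
    rw [Finset.filter_filter]
    apply Finset.filter_congr
    intro n _
    constructor
    · intro e
      exact ⟨by rw [e]; exact h, e⟩
    · intro e
      exact e.2
  · symm
    rw [Finset.filter_filter]
    norm_cast
    rw [Finset.card_eq_zero, Finset.filter_eq_empty_iff]
    rintro n _ ⟨h1, h2⟩
    rw [h2] at h1
    exact h h1

theorem svK_multSum (Q : ℕ) (U : Finset ℕ) (a N R : ℕ) (hU : 0 < U.card) (d : ℕ) :
    (svK Q U a N R hU).multSum d =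
      (((Finset.Ico a (a + N)).filter (fun n => d ∣ valU Q U n)).card : ℝ) := by
  unfold multSum svK
  simp only
  exact sum_support Q U a N (fun v => d ∣ v)

theorem svK_rem (Q : ℕ) (U : Finset ℕ) (a N R : ℕ) (hU : 0 < U.card) (d : ℕ)
    (hd : d ∣ ∏ p ∈ SPK Q U R, p) : |(svK Q U a N R hU).rem d| ≤ d := by
  have hsq : Squarefree d := (SPK_sqf Q U R).squarefree_of_dvd hd
  have hd0 : d ≠ 0 := hsq.ne_zero
  have hsub : ∀ p ∈ d.primeFactors, p ∈ SPK Q U R := by
    intro p hp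
    exact (prime_dvd_SPK (Nat.prime_of_mem_primeFactors hp)).1
      ((Nat.dvd_of_mem_primeFactors hp).trans hd)
  have hcard : ∀ p ∈ d.primeFactors, (Sres Q U p).card = U.card := by
    intro p hp
    have h := mem_SPK.1 (hsub p hp)
    exact Sres_card Q U p h.1.2 h.2.1 h.2.2.2
  have h1 := count_residues d.primeFactors (fun p hp => Nat.prime_of_mem_primeFactors hp)
    (Sres Q U) (by
      intro p _ s hs
      unfold Sres at hs
      exact Finset.mem_range.1 (Finset.mem_filter.1 hs).1) a N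
  have h2 : ∀ n : ℕ, d ∣ valU Q U n ↔ ∀ p ∈ d.primeFactors, n % p ∈ Sres Q U p := by
    intro n
    have e1 : d ∣ valU Q U n ↔ ∀ p ∈ d.primeFactors, p ∣ valU Q U n := by
      constructor
      · intro h p hp
        exact (Nat.dvd_of_mem_primeFactors hp).trans h
      · intro h
        rw [← Nat.prod_primeFactors_of_squarefree hsq]
        apply Finset.prod_primes_dvd
        · intro p hp
          exact (Nat.prime_of_mem_primeFactors hp).prime
        · exact h
    rw [e1]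
    apply forall₂_congr
    intro p hp
    have hpp := Nat.prime_of_mem_primeFactors hp
    unfold valU Sres
    rw [Prime.dvd_finsetProd_iff hpp.prime, Finset.mem_filter, Finset.mem_range]
    have e2 : ∀ u, p ∣ Q * n + 1 + Q * u ↔ p ∣ Q * (n % p) + 1 + Q * u := by
      intro u
      have : Q * n + 1 + Q * u ≡ Q * (n % p) + 1 + Q * u [MOD p] :=
        (((Nat.mod_modEq n p).symm.mul_left Q).add_right 1).add_right (Q * u)
      rw [← Nat.modEq_zero_iff_dvd, ← Nat.modEq_zero_iff_dvd]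
      exact ⟨fun h => this.symm.trans h, fun h => this.trans h⟩
    constructor
    · rintro ⟨u, hu, h⟩
      exact ⟨Nat.mod_lt _ hpp.pos, u, hu, (e2 u).1 h⟩
    · rintro ⟨_, u, hu, h⟩
      exact ⟨u, hu, (e2 u).2 h⟩
  have h3 : nuK U.card d = ∏ p ∈ d.primeFactors, ((Sres Q U p).card : ℝ) / p := by
    unfold nuK
    rw [prodPrimeFactors_apply hd0]
    apply Finset.prod_congr rfl
    intro p hp
    rw [hcard p hp]
  have h4 : ∏ p ∈ d.primeFactors, ((Sres Q U p).card : ℝ) ≤ d := by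
    have h5 : (d : ℝ) = ∏ p ∈ d.primeFactors, (p : ℝ) := by
      rw [← Nat.cast_prod, Nat.prod_primeFactors_of_squarefree hsq]
    rw [h5]
    apply Finset.prod_le_prod
    · intros; positivity
    · intro p hp
      rw [hcard p hp]
      exact_mod_cast (mem_SPK.1 (hsub p hp)).2.2.1.le
  unfold rem
  rw [svK_multSum]
  have h5 : (svK Q U a N R hU).nu d * (svK Q U a N R hU).totalMass = nuK U.card d * N := rfl
  rw [h5, Finset.filter_congr (fun n _ => h2 n), h3]
  exact h1.trans h4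

theorem svK_sifted (Q : ℕ) (U : Finset ℕ) (a N R : ℕ) (hU : 0 < U.card) (hR : R ≤ Q * a) :
    ((((Finset.Ico a (a + N)).filter
      (fun n => ∀ u ∈ U, (Q * n + 1 + Q * u).Prime)).card : ℝ)) ≤
      (svK Q U a N R hU).siftedSum := by
  unfold siftedSum svK
  simp only
  rw [sum_support Q U a N (fun v => (∏ p ∈ SPK Q U R, p).Coprime v)]
  norm_cast
  apply Finset.card_le_card
  intro n hn
  rw [Finset.mem_filter, Finset.mem_Ico] at hn
  rw [Finset.mem_filter, Finset.mem_Ico]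
  refine ⟨hn.1, ?_⟩
  apply Nat.Coprime.prod_left
  intro p hp
  have hp' := mem_SPK.mp hp
  have hle : Q * a ≤ Q * n := Nat.mul_le_mul_left Q hn.1.1
  unfold valU
  apply Nat.Coprime.prod_right
  intro u hu
  exact (Nat.coprime_primes hp'.1.2 (hn.2 u hu)).mpr (by omega)

theorem svK_g (Q : ℕ) (U : Finset ℕ) (a N R : ℕ) (hU : 0 < U.card) (p : ℕ) (hp : p ∈ SPK Q U R) :
    (1 + 1 / (p : ℝ)) ^ U.card - 1 ≤ (svK Q U a N R hU).selbergTerms p := by
  have hpp := (mem_SPK.mp hp).1.2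
  rw [selbergTerms_apply, hpp.primeFactors, Finset.prod_singleton]
  have h5 : (svK Q U a N R hU).nu p = (U.card : ℝ) / (p:ℝ) := nuK_prime _ p hpp
  rw [h5]
  exact pow_one_add_le U.card p (mem_SPK.mp hp).2.2.1

/-! ### the product over the excluded primes -/

theorem prod_one_le (B : Finset ℕ) : (1:ℝ) ≤ ∏ p ∈ B, (1 + 1 / (p : ℝ)) := by
  calc (1:ℝ) = ∏ p ∈ B, (1:ℝ) := by simp
    _ ≤ _ := by
      apply Finset.prod_le_prod
      · intro p _
        exact zero_le_one
      · intro p _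
        have : (0:ℝ) ≤ 1 / (p:ℝ) := by positivity
        linarith

theorem prod_union_le (A B : Finset ℕ) : ∏ p ∈ A ∪ B, (1 + 1 / (p : ℝ)) ≤
    (∏ p ∈ A, (1 + 1 / (p : ℝ))) * ∏ p ∈ B, (1 + 1 / (p : ℝ)) := by
  rw [← Finset.prod_union_inter]
  have h1 := prod_one_le (A ∩ B)
  have h2 := prod_one_le (A ∪ B)
  nlinarith

theorem prod_biUnion_le (S : Finset ℕ) (f : ℕ → Finset ℕ) :
    ∏ p ∈ S.biUnion f, (1 + 1 / (p : ℝ)) ≤ ∏ s ∈ S, ∏ p ∈ f s, (1 + 1 / (p : ℝ)) := by
  induction S using Finset.induction_on with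
  | empty => simp
  | insert s S hs ih =>
    rw [Finset.biUnion_insert, Finset.prod_insert hs]
    refine (prod_union_le _ _).trans ?_
    have h1 := prod_one_le (f s)
    gcongr

/-- lower bound for the Selberg denominator -/
theorem SSK_lower (Q : ℕ) (U : Finset ℕ) (a N z : ℕ) (hQ0 : 0 < Q) (hU : 0 < U.card) :
    (Real.log (z + 1)) ^ U.card ≤
      (2 * ((∏ p ∈ Nat.primesLE U.card, (1 + 1 / (p : ℝ))) *
        ((∏ p ∈ Q.primeFactors, (1 + 1 / (p : ℝ))) *
        (∏ u ∈ U, ∏ v ∈ U with u < v, ∏ p ∈ (v - u).primeFactors, (1 + 1 / (p : ℝ)))))) ^ U.card *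
      SS (svK Q U a N (z ^ U.card) hU) (z ^ U.card) := by
  classical
  set K := U.card with hK
  set s := svK Q U a N (z ^ K) hU with hs
  have hprod : s.prodPrimes = ∏ p ∈ SPK Q U (z ^ K), p := rfl
  set P1 := SPK Q U (z ^ K) with hP1
  -- SS ≥ FF
  have hSS : FF (fun p => s.selbergTerms p) P1 (z ^ K) ≤ SS s (z ^ K) := by
    unfold FF SS
    have hinj : Set.InjOn (fun A : Finset ℕ => ∏ p ∈ A, p)
        ((P1.powerset.filter (fun A => ∏ p ∈ A, p ≤ z ^ K) : Finset (Finset ℕ)) :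
          Set (Finset ℕ)) := by
      intro A hA B hB hAB
      rw [Finset.mem_coe, Finset.mem_filter, Finset.mem_powerset] at hA hB
      have h1 : (∏ p ∈ A, p).primeFactors = A :=
        Nat.primeFactors_prod (fun p hp => (mem_SPK.mp (hA.1 hp)).1.2)
      have h2 : (∏ p ∈ B, p).primeFactors = B :=
        Nat.primeFactors_prod (fun p hp => (mem_SPK.mp (hB.1 hp)).1.2)
      simp only at hAB
      rw [← h1, ← h2, hAB]
    have h3 : ∀ A ∈ P1.powerset.filter (fun A => ∏ p ∈ A, p ≤ z ^ K),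
        ∏ p ∈ A, s.selbergTerms p = s.selbergTerms (∏ p ∈ A, p) := by
      intro A hA
      rw [Finset.mem_filter, Finset.mem_powerset] at hA
      symm
      apply selbergTerms_isMultiplicative.map_prod_of_subset_primeFactors s.prodPrimes
      rw [hprod, primeFactors_SPK]
      exact hA.1
    rw [Finset.sum_congr rfl h3]
    rw [← Finset.sum_image (f := fun l => s.selbergTerms l) hinj]
    apply Finset.sum_le_sum_of_subset_of_nonneg
    · intro l hl
      rw [Finset.mem_image] at hl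
      obtain ⟨A, hA, rfl⟩ := hl
      rw [Finset.mem_filter, Finset.mem_powerset] at hA
      rw [Finset.mem_filter, Nat.mem_divisors]
      refine ⟨⟨?_, prodPrimes_ne_zero⟩, hA.2⟩
      rw [hprod]
      exact Finset.prod_dvd_prod_of_subset _ _ _ hA.1
    · intro l hl _
      rw [Finset.mem_filter, Nat.mem_divisors] at hl
      exact (selbergTerms_pos hl.1.1).le
  have h1 : FF (fun p => (1 + 1 / (p : ℝ)) ^ K - 1) P1 (z ^ K) ≤
      FF (fun p => s.selbergTerms p) P1 (z ^ K) := by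
    apply FF_congr_le
    · intro p _
      have : (1:ℝ) ≤ (1 + 1 / (p : ℝ)) ^ K := by
        apply one_le_pow₀
        have : (0:ℝ) ≤ 1 / (p : ℝ) := by positivity
        linarith
      linarith
    · intro p hp
      exact svK_g Q U a N (z ^ K) hU p hp
  have h2 := FF_pow P1 (fun p hp => (mem_SPK.mp hp).1.2.pos) z K
  -- lower bound for FF (1/p) P1 z
  have h3 := harmonic_le z
  set D : Finset ℕ := U.biUnion (fun u => (U.filter (fun v => u < v)).biUnion
    (fun v => (v - u).primeFactors)) with hD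
  set B : Finset ℕ := Nat.primesLE K ∪ (Q.primeFactors ∪ D) with hB
  have hBpos : ∀ p ∈ B, 0 < p := by
    intro p hp
    rw [hB, Finset.mem_union, Finset.mem_union, hD, Finset.mem_biUnion] at hp
    rcases hp with hp | hp | ⟨u, _, hp⟩
    · exact (Nat.mem_primesLE.1 hp).2.pos
    · exact (Nat.prime_of_mem_primeFactors hp).pos
    · rw [Finset.mem_biUnion] at hp
      obtain ⟨v, _, hp⟩ := hp
      exact (Nat.prime_of_mem_primeFactors hp).pos
  have h4 := FF_sdiff (Nat.primesLE z) B z hBpos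
  have h5 : FF (fun p => 1 / (p : ℝ)) (Nat.primesLE z \ B) z ≤
      FF (fun p => 1 / (p : ℝ)) P1 z := by
    apply FF_subset
    · intro p hp
      rw [Finset.mem_sdiff, Nat.mem_primesLE] at hp
      obtain ⟨⟨hpz, hpp⟩, hp2⟩ := hp
      rw [hP1, mem_SPK]
      have hzz : z ≤ z ^ K := Nat.le_self_pow (by omega) z
      refine ⟨⟨hpz.trans hzz, hpp⟩, ?_, ?_, ?_⟩
      · intro h
        apply hp2
        rw [hB, Finset.mem_union, Finset.mem_union]
        exact Or.inr (Or.inl (Nat.mem_primeFactors.2 ⟨hpp, h, hQ0.ne'⟩))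
      · by_contra h
        apply hp2
        rw [hB, Finset.mem_union]
        exact Or.inl (Nat.mem_primesLE.2 ⟨by omega, hpp⟩)
      · intro u hu v hv huv h
        apply hp2
        rw [hB, Finset.mem_union, Finset.mem_union, hD, Finset.mem_biUnion]
        refine Or.inr (Or.inr ⟨u, hu, Finset.mem_biUnion.2 ⟨v, Finset.mem_filter.2 ⟨hv, huv⟩, ?_⟩⟩)
        exact Nat.mem_primeFactors.2 ⟨hpp, h, by omega⟩
    · intro p _
      positivity
  have h6 : ∏ p ∈ B, (1 + 1 / (p : ℝ)) ≤ (∏ p ∈ Nat.primesLE K, (1 + 1 / (p : ℝ))) *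
        ((∏ p ∈ Q.primeFactors, (1 + 1 / (p : ℝ))) *
        (∏ u ∈ U, ∏ v ∈ U with u < v, ∏ p ∈ (v - u).primeFactors, (1 + 1 / (p : ℝ)))) := by
    have h6a := prod_union_le (Nat.primesLE K) (Q.primeFactors ∪ D)
    have h6b := prod_union_le Q.primeFactors D
    have h6c : ∏ p ∈ D, (1 + 1 / (p : ℝ)) ≤
        ∏ u ∈ U, ∏ v ∈ U with u < v, ∏ p ∈ (v - u).primeFactors, (1 + 1 / (p : ℝ)) := by
      rw [hD]
      refine (prod_biUnion_le _ _).trans ?_
      apply Finset.prod_le_prod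
      · intro u _
        exact zero_le_one.trans (prod_one_le _)
      · intro u _
        exact prod_biUnion_le _ _
    rw [hB]
    exact h6a.trans (mul_le_mul_of_nonneg_left
      (h6b.trans (mul_le_mul_of_nonneg_left h6c (zero_le_one.trans (prod_one_le _))))
      (zero_le_one.trans (prod_one_le _)))
  have hFn : 0 ≤ FF (fun p => 1 / (p : ℝ)) P1 z := FF_nonneg _ _ (fun q _ => by positivity) _
  have hFn' : 0 ≤ FF (fun p => 1 / (p : ℝ)) (Nat.primesLE z \ B) z :=
    FF_nonneg _ _ (fun q _ => by positivity) _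
  have hB1 := prod_one_le B
  generalize ((∏ p ∈ Nat.primesLE K, (1 + 1 / (p : ℝ))) *
        ((∏ p ∈ Q.primeFactors, (1 + 1 / (p : ℝ))) *
        (∏ u ∈ U, ∏ v ∈ U with u < v, ∏ p ∈ (v - u).primeFactors, (1 + 1 / (p : ℝ))))) = cc
        at h6 ⊢
  have h7 : Real.log (z + 1) ≤ 2 * (cc * FF (fun p => 1 / (p : ℝ)) P1 z) := by
    have hl : Real.log (z + 1) ≤ ∑ a ∈ Finset.Icc 1 z, 1 / (a : ℝ) := by
      have := log_add_one_le_harmonic z
      rw [harmonic_eq_sum_Icc] at this
      push_cast at this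
      simpa [one_div] using this
    refine hl.trans (h3.trans ?_)
    gcongr
    refine h4.trans ?_
    calc (∏ p ∈ B, (1 + 1 / (p : ℝ))) * FF (fun p => 1 / (p : ℝ)) (Nat.primesLE z \ B) z
        ≤ cc * FF (fun p => 1 / (p : ℝ)) (Nat.primesLE z \ B) z := by gcongr
      _ ≤ cc * FF (fun p => 1 / (p : ℝ)) P1 z := by
          have : 0 ≤ cc := zero_le_one.trans (hB1.trans h6)
          gcongr
  have hlog : 0 ≤ Real.log (z + 1) := by
    apply Real.log_nonneg
    have : (0:ℝ) ≤ z := by positivity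
    linarith
  have hcc0 : 0 ≤ cc := zero_le_one.trans (hB1.trans h6)
  calc (Real.log (z + 1)) ^ K ≤ (2 * (cc * FF (fun p => 1 / (p : ℝ)) P1 z)) ^ K := by
        gcongr
    _ = (2 * cc) ^ K * (FF (fun p => 1 / (p : ℝ)) P1 z) ^ K := by ring
    _ ≤ (2 * cc) ^ K * SS s (z ^ K) := by
        have := h2.trans (h1.trans hSS)
        gcongr

theorem nuK_inv_le (Q : ℕ) (U : Finset ℕ) (R d : ℕ) (hU : 0 < U.card)
    (hd : d ∣ ∏ p ∈ SPK Q U R, p) : (nuK U.card d)⁻¹ ≤ d := by
  have hsq : Squarefree d := (SPK_sqf Q U R).squarefree_of_dvd hd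
  have hd0 : d ≠ 0 := hsq.ne_zero
  have h1 : nuK U.card d = (∏ _p ∈ d.primeFactors, (U.card : ℝ)) / d := by
    unfold nuK
    rw [prodPrimeFactors_apply hd0, Finset.prod_div_distrib]
    congr 1
    rw [← Nat.cast_prod, Nat.prod_primeFactors_of_squarefree hsq]
  have h2 : (1:ℝ) ≤ ∏ _p ∈ d.primeFactors, (U.card : ℝ) := by
    rw [Finset.prod_const]
    apply one_le_pow₀
    exact_mod_cast hU
  have hdp : (0:ℝ) < d := by exact_mod_cast Nat.pos_of_ne_zero hd0
  rw [h1, inv_div, div_le_iff₀ (by linarith)]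
  nlinarith

/-- **Selberg's upper bound for `K` linear forms.** -/
theorem multi_bound_aux (Q : ℕ) (U : Finset ℕ) (a N z : ℕ) (hQ0 : 0 < Q) (hU : 0 < U.card)
    (hz : 1 ≤ z) (hza : z ^ U.card ≤ Q * a) :
    ((((Finset.Ico a (a + N)).filter
      (fun n => ∀ u ∈ U, (Q * n + 1 + Q * u).Prime)).card : ℝ)) ≤
      (2 * ((∏ p ∈ Nat.primesLE U.card, (1 + 1 / (p : ℝ))) *
        ((∏ p ∈ Q.primeFactors, (1 + 1 / (p : ℝ))) *
        (∏ u ∈ U, ∏ v ∈ U with u < v, ∏ p ∈ (v - u).primeFactors, (1 + 1 / (p : ℝ)))))) ^ U.card *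
        N / (Real.log (z + 1)) ^ U.card + (z : ℝ) ^ (6 * U.card) := by
  have h3 := SSK_lower Q U a N z hQ0 hU
  generalize ((∏ p ∈ Nat.primesLE U.card, (1 + 1 / (p : ℝ))) *
        ((∏ p ∈ Q.primeFactors, (1 + 1 / (p : ℝ))) *
        (∏ u ∈ U, ∏ v ∈ U with u < v, ∏ p ∈ (v - u).primeFactors, (1 + 1 / (p : ℝ))))) = cc
        at h3 ⊢
  set K := U.card with hK
  set R := z ^ K with hRdef
  have h1 := svK_sifted Q U a N R hU hza
  have hR : 1 ≤ R := Nat.one_le_pow _ _ hz
  have h2 := selberg_bound (svK Q U a N R hU) R hR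
  set s := svK Q U a N R hU with hs
  have hS := SS_pos s R hR
  have hzpos : (0:ℝ) < z := by exact_mod_cast hz
  have hlog : 0 < Real.log (z + 1) := Real.log_pos (by linarith)
  have hmass : s.totalMass = N := rfl
  have hprod : s.prodPrimes = ∏ p ∈ SPK Q U R, p := rfl
  refine h1.trans (h2.trans ?_)
  apply add_le_add
  · rw [hmass]
    generalize SS s R = S at *
    have hL2 : 0 < (Real.log (z + 1)) ^ K := pow_pos hlog K
    have hNn : (0:ℝ) ≤ N := Nat.cast_nonneg N
    rw [le_div_iff₀ hL2]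
    calc (N : ℝ) * S⁻¹ * (Real.log (z + 1)) ^ K
        ≤ (N : ℝ) * S⁻¹ * (_ * S) := by
          apply mul_le_mul_of_nonneg_left h3
          exact mul_nonneg hNn (inv_nonneg.mpr hS.le)
      _ = _ := by field_simp
  · have hRr : (R : ℝ) = (z:ℝ) ^ K := by rw [hRdef]; push_cast; rfl
    have hcard : ((s.prodPrimes.divisors.filter (fun d => d ≤ R)).card : ℝ) ≤ R := by
      have : s.prodPrimes.divisors.filter (fun d => d ≤ R) ⊆ Finset.Icc 1 R := by
        intro d hd
        rw [Finset.mem_filter, Nat.mem_divisors] at hd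
        rw [Finset.mem_Icc]
        exact ⟨Nat.pos_of_dvd_of_pos hd.1.1 (Nat.pos_of_ne_zero hd.1.2), hd.2⟩
      have h4 := Finset.card_le_card this
      rw [Nat.card_Icc] at h4
      exact_mod_cast h4
    calc ∑ d1 ∈ s.prodPrimes.divisors with d1 ≤ R, ∑ d2 ∈ s.prodPrimes.divisors with d2 ≤ R,
        (s.nu d1)⁻¹ * (s.nu d2)⁻¹ * |s.rem (d1.lcm d2)|
        ≤ ∑ d1 ∈ s.prodPrimes.divisors with d1 ≤ R,
          ∑ d2 ∈ s.prodPrimes.divisors with d2 ≤ R, (R:ℝ) ^ 4 := by
          apply Finset.sum_le_sum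
          intro d1 hd1
          apply Finset.sum_le_sum
          intro d2 hd2
          rw [Finset.mem_filter, Nat.mem_divisors] at hd1 hd2
          have e1 : (s.nu d1)⁻¹ ≤ (R:ℝ) := by
            refine (nuK_inv_le Q U R d1 hU hd1.1.1).trans ?_
            exact_mod_cast hd1.2
          have e2 : (s.nu d2)⁻¹ ≤ (R:ℝ) := by
            refine (nuK_inv_le Q U R d2 hU hd2.1.1).trans ?_
            exact_mod_cast hd2.2
          have e3 : |s.rem (d1.lcm d2)| ≤ (R:ℝ) ^ 2 := by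
            refine (svK_rem Q U a N R hU _ (Nat.lcm_dvd hd1.1.1 hd2.1.1)).trans ?_
            have h0 : d1.lcm d2 ≤ d1 * d2 := by
              rw [Nat.lcm]
              exact Nat.div_le_self _ _
            have : ((d1.lcm d2 : ℕ) : ℝ) ≤ ((R * R : ℕ) : ℝ) := by
              exact_mod_cast h0.trans (Nat.mul_le_mul hd1.2 hd2.2)
            calc ((d1.lcm d2 : ℕ) : ℝ) ≤ ((R * R : ℕ) : ℝ) := this
              _ = (R:ℝ) ^ 2 := by push_cast; ring
          have p2 : 0 ≤ (s.nu d2)⁻¹ := (inv_pos.mpr (nu_pos_of_dvd_prodPrimes hd2.1.1)).le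
          calc (s.nu d1)⁻¹ * (s.nu d2)⁻¹ * |s.rem (d1.lcm d2)|
              ≤ (R:ℝ) * (R:ℝ) * (R:ℝ) ^ 2 := by gcongr
            _ = (R:ℝ) ^ 4 := by ring
      _ = ((s.prodPrimes.divisors.filter (fun d => d ≤ R)).card : ℝ) *
          ((s.prodPrimes.divisors.filter (fun d => d ≤ R)).card : ℝ) * (R:ℝ) ^ 4 := by
          rw [Finset.sum_const, Finset.sum_const]
          simp only [nsmul_eq_mul]
          ring
      _ ≤ (R:ℝ) * (R:ℝ) * (R:ℝ) ^ 4 := by gcongr
      _ = (z:ℝ) ^ (6 * K) := by rw [hRr]; ring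

/-- [PSK] (a). -/
theorem multi_bound (K : ℕ) : ∃ (C : ℝ) (E : ℕ), 0 < C ∧
    ∀ (Q a N z : ℕ) (U : Finset ℕ), 0 < Q → U.card = K → 1 ≤ z → z ^ K ≤ Q * a →
      ((((Finset.Ico a (a + N)).filter
        (fun n => ∀ u ∈ U, (Q * n + 1 + Q * u).Prime)).card : ℝ)) ≤
        C * (∏ p ∈ Q.primeFactors, (1 + 1 / (p : ℝ))) ^ K *
          (∏ u ∈ U, ∏ v ∈ U with u < v, ∏ p ∈ (v - u).primeFactors, (1 + 1 / (p : ℝ))) ^ K *
          N / (Real.log (z + 1)) ^ K + (z : ℝ) ^ E := by
  rcases Nat.eq_zero_or_pos K with rfl | hK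
  · refine ⟨1, 0, one_pos, ?_⟩
    intro Q a N z U _ hU _ _
    rw [Finset.card_eq_zero] at hU
    subst hU
    simp only [Finset.notMem_empty, IsEmpty.forall_iff, implies_true, Finset.filter_true,
      Nat.card_Ico, Nat.add_sub_cancel_left, pow_zero, mul_one, div_one, one_mul]
    linarith
  · refine ⟨(2 * (∏ p ∈ Nat.primesLE K, (1 + 1 / (p : ℝ)))) ^ K, 6 * K, ?_, ?_⟩
    · have := prod_one_le (Nat.primesLE K)
      positivity
    · intro Q a N z U hQ0 hU hz hza
      subst hU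
      have h := multi_bound_aux Q U a N z hQ0 hK hz hza
      generalize (∏ p ∈ Nat.primesLE U.card, (1 + 1 / (p : ℝ))) = c1 at h ⊢
      generalize (∏ p ∈ Q.primeFactors, (1 + 1 / (p : ℝ))) = c2 at h ⊢
      generalize (∏ u ∈ U, ∏ v ∈ U with u < v,
        ∏ p ∈ (v - u).primeFactors, (1 + 1 / (p : ℝ))) = c3 at h ⊢
      refine h.trans (le_of_eq ?_)
      congr 1
      rw [mul_pow, mul_pow, mul_pow, mul_pow]
      ring

end Pool.Agent.H18.T2
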