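import Pool.Agent.H75.PS.Lower
import Pool.Agent.H75.PS.Count

/-!
# [PSK] (a), part 1: counting and the product inequality for `K` linear forms
-/

namespace Pool.Agent.H18.T2

open Finset ArithmeticFunction
open Pool.Agent.H75.PS

/-! ### products of the sums `FF` -/

theorem FF_mul_gen (a b c : ℕ → ℝ) (P : Finset ℕ) :
    (∀ p ∈ P, 0 < p ∧ 0 ≤ a p ∧ 0 ≤ b p ∧ a p + b p + a p * b p ≤ c p) →
    ∀ x y : ℕ, FF a P x * FF b P y ≤ FF c P (x * y) := by
  classical
  induction P using Finset.induction_on with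
  | empty =>
    intro _ x y
    unfold FF
    simp only [Finset.powerset_empty]
    rw [Finset.sum_filter, Finset.sum_filter, Finset.sum_filter]
    simp only [Finset.sum_singleton, Finset.prod_empty]
    by_cases hx : 1 ≤ x
    · by_cases hy : 1 ≤ y
      · have : 1 ≤ x * y := Nat.mul_pos hx hy
        simp [hx, hy, this]
      · have : y = 0 := by omega
        simp [this]
    · have : x = 0 := by omega
      simp [this]
  | insert p P hp ih =>
    intro h x y
    obtain ⟨hp0, hap, hbp, hcp⟩ := h p (Finset.mem_insert_self p P)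
    have hP : ∀ q ∈ P, 0 < q ∧ 0 ≤ a q ∧ 0 ≤ b q ∧ a q + b q + a q * b q ≤ c q :=
      fun q hq => h q (Finset.mem_insert_of_mem hq)
    have ih' := ih hP
    have hg : ∀ q ∈ P, 0 ≤ c q := by
      intro q hq
      obtain ⟨_, h1, h2, h3⟩ := hP q hq
      have : 0 ≤ a q * b q := mul_nonneg h1 h2
      linarith
    have ha' : ∀ q ∈ P, 0 ≤ a q := fun q hq => (hP q hq).2.1
    have hb' : ∀ q ∈ P, 0 ≤ b q := fun q hq => (hP q hq).2.2.1
    rw [FF_insert _ P x p hp hp0, FF_insert _ P y p hp hp0, FF_insert c P (x * y) p hp hp0]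
    have e1 := ih' x y
    have e2 := ih' (x / p) y
    have e3 := ih' x (y / p)
    have e4 := ih' (x / p) (y / p)
    have m2 : FF c P (x / p * y) ≤ FF c P (x * y / p) := by
      apply FF_mono c P hg
      rw [Nat.le_div_iff_mul_le hp0]
      calc x / p * y * p = (x / p * p) * y := by ring
        _ ≤ x * y := Nat.mul_le_mul_right y (Nat.div_mul_le_self x p)
    have m3 : FF c P (x * (y / p)) ≤ FF c P (x * y / p) := by
      apply FF_mono c P hg
      rw [Nat.le_div_iff_mul_le hp0]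
      calc x * (y / p) * p = x * (y / p * p) := by ring
        _ ≤ x * y := Nat.mul_le_mul_left x (Nat.div_mul_le_self y p)
    have m4 : FF c P (x / p * (y / p)) ≤ FF c P (x * y / p) := by
      refine le_trans ?_ m3
      apply FF_mono c P hg
      exact Nat.mul_le_mul_right _ (Nat.div_le_self x p)
    have hFn : 0 ≤ FF c P (x * y / p) := FF_nonneg c P hg _
    have n1 := FF_nonneg a P ha' (x / p)
    have n2 := FF_nonneg b P hb' (y / p)
    set A := FF a P x
    set B := FF b P y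
    set A' := FF a P (x / p)
    set B' := FF b P (y / p)
    set F := FF c P (x * y / p)
    calc (A + a p * A') * (B + b p * B')
        = A * B + a p * (A' * B) + b p * (A * B') + a p * b p * (A' * B') := by ring
      _ ≤ FF c P (x * y) + a p * F + b p * F + a p * b p * F := by
          have := e2.trans m2
          have := e3.trans m3
          have := e4.trans m4
          have := mul_nonneg hap hbp
          gcongr
      _ = FF c P (x * y) + (a p + b p + a p * b p) * F := by ring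
      _ ≤ FF c P (x * y) + c p * F := by gcongr

theorem FF_congr_le (g g' : ℕ → ℝ) (P : Finset ℕ) (h0 : ∀ p ∈ P, 0 ≤ g p)
    (h : ∀ p ∈ P, g p ≤ g' p) (x : ℕ) : FF g P x ≤ FF g' P x := by
  unfold FF
  apply Finset.sum_le_sum
  intro A hA
  rw [Finset.mem_filter, Finset.mem_powerset] at hA
  exact Finset.prod_le_prod (fun p hp => h0 p (hA.1 hp)) (fun p hp => h p (hA.1 hp))

theorem FF_pow (P : Finset ℕ) (hP : ∀ p ∈ P, 0 < p) (z : ℕ) (K : ℕ) :
    (FF (fun p => 1 / (p : ℝ)) P z) ^ K ≤ FF (fun p => (1 + 1 / (p : ℝ)) ^ K - 1) P (z ^ K) := by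
  induction K with
  | zero =>
    simp only [pow_zero, sub_self]
    unfold FF
    calc (1:ℝ) = ∏ p ∈ (∅ : Finset ℕ), (0:ℝ) := by simp
      _ ≤ _ := by
        apply Finset.single_le_sum (f := fun A : Finset ℕ => ∏ p ∈ A, (0:ℝ))
        · intro A _
          exact Finset.prod_nonneg (fun _ _ => le_rfl)
        · simp
  | succ K ih =>
    rw [pow_succ', pow_succ']
    have h0 : 0 ≤ FF (fun p => 1 / (p : ℝ)) P z := FF_nonneg _ _ (fun q _ => by positivity) _
    have h1 := FF_mul_gen (fun p => 1 / (p : ℝ)) (fun p => (1 + 1 / (p : ℝ)) ^ K - 1)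
      (fun p => (1 + 1 / (p : ℝ)) ^ (K + 1) - 1) P (by
      intro p hp
      refine ⟨hP p hp, by positivity, ?_, ?_⟩
      · have : (1:ℝ) ≤ (1 + 1 / (p : ℝ)) ^ K := by
          apply one_le_pow₀
          have : (0:ℝ) ≤ 1 / (p : ℝ) := by positivity
          linarith
        linarith
      · apply le_of_eq
        ring) z (z ^ K)
    exact (mul_le_mul_of_nonneg_left ih h0).trans h1

theorem pow_one_add_le (K p : ℕ) (h : K < p) :
    (1 + 1 / (p : ℝ)) ^ K - 1 ≤ (K / (p : ℝ)) * (1 - K / (p : ℝ))⁻¹ := by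
  have hp : (0:ℝ) < p := by exact_mod_cast (by omega : 0 < p)
  have hKp : (K : ℝ) < p := by exact_mod_cast h
  have h1 : (0:ℝ) < 1 - K / (p : ℝ) := by
    rw [sub_pos, div_lt_one hp]
    exact hKp
  have h2 : (1 + 1 / (p : ℝ)) ^ K ≤ Real.exp (K / (p : ℝ)) := by
    have : 1 + 1 / (p : ℝ) ≤ Real.exp (1 / (p : ℝ)) := by
      have := Real.add_one_le_exp (1 / (p : ℝ))
      linarith
    calc (1 + 1 / (p : ℝ)) ^ K ≤ (Real.exp (1 / (p : ℝ))) ^ K := by gcongr
      _ = Real.exp (K / (p : ℝ)) := by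
        rw [← Real.exp_nat_mul]
        congr 1
        ring
  have h3 : Real.exp (K / (p : ℝ)) ≤ (1 - K / (p : ℝ))⁻¹ := by
    have h4 := Real.add_one_le_exp (-(K / (p : ℝ)))
    have h5 : 1 - K / (p : ℝ) ≤ (Real.exp (K / (p : ℝ)))⁻¹ := by
      rw [← Real.exp_neg]
      linarith
    rw [le_inv_comm₀ (Real.exp_pos _) h1]
    exact h5
  have h6 : (K / (p : ℝ)) * (1 - K / (p : ℝ))⁻¹ = (1 - K / (p : ℝ))⁻¹ - 1 := by
    have := mul_inv_cancel₀ h1.ne'
    linear_combination (-1) * this
  rw [h6]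
  linarith

/-! ### counting -/

theorem exists_residues (P : Finset ℕ) (hP : ∀ p ∈ P, p.Prime) (S : ℕ → Finset ℕ)
    (hS : ∀ p ∈ P, ∀ s ∈ S p, s < p) :
    ∃ R : Finset ℕ, R.card = ∏ p ∈ P, (S p).card ∧
      (∀ r ∈ R, r < ∏ p ∈ P, p) ∧
      ∀ n : ℕ, (∀ p ∈ P, n % p ∈ S p) ↔ n % (∏ p ∈ P, p) ∈ R := by
  classical
  induction P using Finset.induction_on with
  | empty =>
    refine ⟨{0}, by simp, by simp, fun n => ?_⟩
    simp [Nat.mod_one]
  | insert p P hp ih =>
    obtain ⟨R, hR1, hR2, hR3⟩ := ih (fun q hq => hP q (Finset.mem_insert_of_mem hq))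
      (fun q hq => hS q (Finset.mem_insert_of_mem hq))
    have hpp := hP p (Finset.mem_insert_self p P)
    set D := ∏ p ∈ P, p with hD
    have hD0 : D ≠ 0 := Finset.prod_ne_zero_iff.2
      (fun q hq => (hP q (Finset.mem_insert_of_mem hq)).ne_zero)
    have hcop : Nat.Coprime p D := by
      apply Nat.Coprime.prod_right
      intro q hq
      exact (Nat.coprime_primes hpp (hP q (Finset.mem_insert_of_mem hq))).mpr
        (fun hpq => hp (hpq ▸ hq))
    have hSp := hS p (Finset.mem_insert_self p P)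
    refine ⟨(S p ×ˢ R).image (fun sr => (Nat.chineseRemainder hcop sr.1 sr.2 : ℕ)), ?_, ?_, ?_⟩
    · rw [Finset.card_image_of_injOn, Finset.card_product, Finset.prod_insert hp, hR1]
      intro x hx y hy hxy
      rw [Finset.mem_coe, Finset.mem_product] at hx hy
      have hx1 := (Nat.chineseRemainder hcop x.1 x.2).2
      have hy1 := (Nat.chineseRemainder hcop y.1 y.2).2
      simp only at hxy
      rw [hxy] at hx1
      have e1 : x.1 = y.1 := (hx1.1.symm.trans hy1.1).eq_of_lt_of_lt (hSp _ hx.1) (hSp _ hy.1)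
      have e2 : x.2 = y.2 := (hx1.2.symm.trans hy1.2).eq_of_lt_of_lt (hR2 _ hx.2) (hR2 _ hy.2)
      exact Prod.ext e1 e2
    · intro r hr
      rw [Finset.mem_image] at hr
      obtain ⟨sr, _, rfl⟩ := hr
      rw [Finset.prod_insert hp]
      exact Nat.chineseRemainder_lt_mul hcop _ _ hpp.ne_zero hD0
    · intro n
      rw [Finset.prod_insert hp, Finset.forall_mem_insert, hR3 n, Finset.mem_image]
      constructor
      · rintro ⟨h1, h2⟩
        refine ⟨(n % p, n % D), Finset.mem_product.2 ⟨h1, h2⟩, ?_⟩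
        have hc := (Nat.chineseRemainder hcop (n % p) (n % D)).2
        have hlt := Nat.chineseRemainder_lt_mul hcop (n % p) (n % D) hpp.ne_zero hD0
        have h3 : (Nat.chineseRemainder hcop (n % p) (n % D) : ℕ) ≡ n [MOD p * D] := by
          rw [← Nat.modEq_and_modEq_iff_modEq_mul hcop]
          exact ⟨hc.1.trans (Nat.mod_modEq n p), hc.2.trans (Nat.mod_modEq n D)⟩
        have h4 : (Nat.chineseRemainder hcop (n % p) (n % D) : ℕ) % (p * D) = n % (p * D) := h3
        rw [Nat.mod_eq_of_lt hlt] at h4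
        exact h4
      · rintro ⟨sr, hsr, h⟩
        rw [Finset.mem_product] at hsr
        have hc := (Nat.chineseRemainder hcop sr.1 sr.2).2
        have h3 : (Nat.chineseRemainder hcop sr.1 sr.2 : ℕ) ≡ n [MOD p * D] := by
          rw [h]
          exact Nat.mod_modEq n (p * D)
        have h4 := (Nat.modEq_and_modEq_iff_modEq_mul hcop).2 h3
        have e1 : n % p = sr.1 := by
          have : n % p = sr.1 % p := (h4.1.symm.trans hc.1)
          rw [this, Nat.mod_eq_of_lt (hSp _ hsr.1)]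
        have e2 : n % D = sr.2 := by
          have : n % D = sr.2 % D := (h4.2.symm.trans hc.2)
          rw [this, Nat.mod_eq_of_lt (hR2 _ hsr.2)]
        rw [e1, e2]
        exact hsr

theorem count_residues (P : Finset ℕ) (hP : ∀ p ∈ P, p.Prime) (S : ℕ → Finset ℕ)
    (hS : ∀ p ∈ P, ∀ s ∈ S p, s < p) (a N : ℕ) :
    |((((Finset.Ico a (a + N)).filter (fun n => ∀ p ∈ P, n % p ∈ S p)).card : ℝ)) -
      (∏ p ∈ P, ((S p).card : ℝ) / p) * N| ≤ ∏ p ∈ P, ((S p).card : ℝ) := by
  classical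
  obtain ⟨R, hR1, hR2, hR3⟩ := exists_residues P hP S hS
  set D := ∏ p ∈ P, p with hD
  have hD0 : 0 < D := Nat.pos_of_ne_zero (Finset.prod_ne_zero_iff.2
      (fun q hq => (hP q hq).ne_zero))
  have h1 : (((Finset.Ico a (a + N)).filter (fun n => ∀ p ∈ P, n % p ∈ S p)).card : ℝ) =
      ∑ r ∈ R, (((Finset.Ico a (a + N)).filter (fun n => n ≡ r [MOD D])).card : ℝ) := by
    have : (Finset.Ico a (a + N)).filter (fun n => ∀ p ∈ P, n % p ∈ S p) =
        R.biUnion (fun r => (Finset.Ico a (a + N)).filter (fun n => n ≡ r [MOD D])) := by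
      ext n
      rw [Finset.mem_filter, Finset.mem_biUnion, hR3 n]
      constructor
      · rintro ⟨h1, h2⟩
        exact ⟨n % D, h2, Finset.mem_filter.2 ⟨h1, (Nat.mod_modEq n D).symm⟩⟩
      · rintro ⟨r, hr, hn⟩
        rw [Finset.mem_filter] at hn
        refine ⟨hn.1, ?_⟩
        have : n % D = r % D := hn.2
        rw [this, Nat.mod_eq_of_lt (hR2 r hr)]
        exact hr
    rw [this, Finset.card_biUnion]
    · push_cast
      rfl
    · intro r hr r' hr' hne
      rw [Function.onFun, Finset.disjoint_left]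
      intro n hn hn'
      rw [Finset.mem_filter] at hn hn'
      exact hne ((hn.2.symm.trans hn'.2).eq_of_lt_of_lt (hR2 r hr) (hR2 r' hr'))
  have h2 : (∏ p ∈ P, ((S p).card : ℝ) / p) * N = ∑ r ∈ R, (N : ℝ) / D := by
    rw [Finset.sum_const, nsmul_eq_mul, Finset.prod_div_distrib, hR1, hD]
    push_cast
    ring
  rw [h1, h2, ← Finset.sum_sub_distrib]
  refine (Finset.abs_sum_le_sum_abs _ _).trans ?_
  calc ∑ r ∈ R, |(((Finset.Ico a (a + N)).filter (fun n => n ≡ r [MOD D])).card : ℝ) -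
        (N : ℝ) / D| ≤ ∑ r ∈ R, (1:ℝ) := by
        apply Finset.sum_le_sum
        intro r _
        exact card_modEq a N D r hD0
    _ = ∏ p ∈ P, ((S p).card : ℝ) := by
        rw [Finset.sum_const, nsmul_eq_mul, mul_one, hR1]
        push_cast
        rfl

/-- The residues mod `p` killed by the forms `Q n + 1 + Q u`, `u ∈ U`. -/
def Sres (Q : ℕ) (U : Finset ℕ) (p : ℕ) : Finset ℕ :=
  (Finset.range p).filter (fun s => ∃ u ∈ U, p ∣ Q * s + 1 + Q * u)

theorem Sres_card (Q : ℕ) (U : Finset ℕ) (p : ℕ) (hp : p.Prime) (hpQ : ¬ p ∣ Q)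
    (hU : ∀ u ∈ U, ∀ v ∈ U, u < v → ¬ p ∣ v - u) : (Sres Q U p).card = U.card := by
  classical
  have hcop : Nat.Coprime p Q := (Nat.Prime.coprime_iff_not_dvd hp).2 hpQ
  obtain ⟨w, hw⟩ : ∃ w : ℕ, p ∣ Q * w + 1 := by
    have : NeZero p := ⟨hp.ne_zero⟩
    have hunit : IsUnit ((Q : ℕ) : ZMod p) := (ZMod.isUnit_iff_coprime Q p).mpr hcop.symm
    obtain ⟨w, hw⟩ := hunit
    refine ⟨((-(↑(w⁻¹) : ZMod p))).val, ?_⟩
    rw [← CharP.cast_eq_zero_iff (ZMod p) p]
    push_cast
    rw [ZMod.natCast_val, ZMod.cast_id]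
    rw [← hw]
    simp
  -- the class of `u`
  have key : ∀ s u : ℕ, p ∣ Q * s + 1 + Q * u ↔ s ≡ w + (p - 1) * u [MOD p] := by
    intro s u
    have hev : p ∣ Q * (w + (p - 1) * u) + 1 + Q * u := by
      have : Q * (w + (p - 1) * u) + 1 + Q * u = (Q * w + 1) + p * (Q * u) := by
        obtain ⟨e', he'⟩ : ∃ e', p = e' + 1 := ⟨p - 1, by have := hp.pos; omega⟩
        rw [he']
        simp only [Nat.add_sub_cancel]
        ring
      rw [this]
      exact (Nat.dvd_add_right hw).mpr (Dvd.intro _ rfl)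
    constructor
    · intro h
      have h2 : Q * s + 1 + Q * u ≡ Q * (w + (p - 1) * u) + 1 + Q * u [MOD p] :=
        ((Nat.modEq_zero_iff_dvd).mpr h).trans ((Nat.modEq_zero_iff_dvd).mpr hev).symm
      have h3 := Nat.ModEq.add_right_cancel' 1 (Nat.ModEq.add_right_cancel' (Q * u) h2)
      exact Nat.ModEq.cancel_left_of_coprime hcop h3
    · intro h
      have h2 := ((h.mul_left Q).add_right 1).add_right (Q * u)
      exact (Nat.modEq_zero_iff_dvd).mp (h2.trans ((Nat.modEq_zero_iff_dvd).mpr hev))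
  have himg : Sres Q U p = U.image (fun u => (w + (p - 1) * u) % p) := by
    ext s
    unfold Sres
    rw [Finset.mem_filter, Finset.mem_range, Finset.mem_image]
    constructor
    · rintro ⟨hs, u, hu, h⟩
      refine ⟨u, hu, ?_⟩
      have := (key s u).1 h
      have h2 : s % p = (w + (p - 1) * u) % p := this
      rw [← h2, Nat.mod_eq_of_lt hs]
    · rintro ⟨u, hu, rfl⟩
      refine ⟨Nat.mod_lt _ hp.pos, u, hu, ?_⟩
      rw [key]
      exact Nat.mod_modEq _ _
  rw [himg, Finset.card_image_of_injOn]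
  intro u hu v hv huv
  rw [Finset.mem_coe] at hu hv
  have h1 : w + (p - 1) * u ≡ w + (p - 1) * v [MOD p] := huv
  have h2 : (p - 1) * u ≡ (p - 1) * v [MOD p] := Nat.ModEq.add_left_cancel' w h1
  have hc : Nat.Coprime p (p - 1) := by
    have := Nat.coprime_self_sub_right (n := p) (m := 1) hp.pos
    rw [this]
    exact Nat.coprime_one_right p
  have h3 : u ≡ v [MOD p] := Nat.ModEq.cancel_left_of_coprime hc h2
  rcases lt_trichotomy u v with h | h | h
  · exact absurd ((Nat.modEq_iff_dvd' h.le).1 h3) (hU u hu v hv h)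
  · exact h
  · exact absurd ((Nat.modEq_iff_dvd' h.le).1 h3.symm) (hU v hv u hu h)

end Pool.Agent.H18.T2
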