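import Pool.Agent.H18.MR.EN
import Pool.Agent.H24.T2.Interface

/-!
# [EN2], part 1: the relation at one prime, for `k` factors
-/

namespace Pool.Agent.H18.T2

open Finset Filter
open Pool.Agent.H24.MR Pool.Agent.H59.MR Pool.Agent.H18.MR
open Pool.Agent.H24.T2 (rel Dec)

variable {ν : Set ℕ → ℝ} (hν : FinAddInv ν) {Q u0 : ℕ} (hQ : 0 < Q)

theorem prime_rel (a : ℕ → ℝ) (ha : ∀ n, a n = 1 ∨ a n = -1) (s : ℝ) {k : ℕ} (β : Fin k → ℕ)
    (K' n p : ℕ) (hβ : ∀ i, β i ≤ K') [NeZero p]
    (hp : Nat.Coprime Q p) (hn : p * (Q + K') ≤ Q * n) :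
    (1 - Real.exp (-1)) * (condP ν hν Q u0 hQ).P {y | rel β a p y ≠ s} ≤
      miN (condP ν hν Q u0 hQ) (blk a Q n) p +
        p * (Q * ν {y | y ≡ u0 [MOD Q] ∧ p ∣ y ∧ rel β a p y ≠ s}) := by
  classical
  set μ := condP ν hν Q u0 hQ with hμ
  have hp0 : 0 < p := Nat.pos_of_ne_zero (NeZero.ne p)
  set B : (Fin (Q * n) → Bool) → ZMod p → Prop := fun x r =>
    ∏ i, sg (extb x (Q * kk Q p r + p * β i)) ≠ s with hB
  have hlt : ∀ (r : ZMod p) (i : Fin k), Q * kk Q p r + p * β i < Q * n := by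
    intro r i
    have h1 : kk Q p r < p := ZMod.val_lt _
    have h2 : kk Q p r + 1 ≤ p := h1
    have h3 : Q * (kk Q p r + 1) ≤ Q * p := Nat.mul_le_mul_left _ h2
    have h4 : p * β i ≤ p * K' := Nat.mul_le_mul_left _ (hβ i)
    nlinarith
  have hBiff : ∀ (y : ℕ) (r : ZMod p), B (blk a Q n y) r ↔
      y + Q * kk Q p r ∈ {y | rel β a p y ≠ s} := by
    intro y r
    simp only [hB, Set.mem_ofPred_eq, rel]
    have : ∀ i, sg (extb (blk a Q n y) (Q * kk Q p r + p * β i)) =
        a (y + Q * kk Q p r + p * β i) := by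
      intro i
      rw [sg_extb_blk ha y _ (hlt r i), Nat.add_assoc]
    rw [Finset.prod_congr rfl (fun i _ => this i)]
  have dv := dv_event μ (blk a Q n) (fun y : ℕ => (y : ZMod p)) B
  -- the product side
  have hprod : ∑ x, ∑ r, law μ (blk a Q n) x * law μ (fun y : ℕ => (y : ZMod p)) r *
      (if B x r then 1 else 0) = μ.P {y | rel β a p y ≠ s} := by
    rw [Finset.sum_comm]
    have : ∀ r : ZMod p, ∑ x, law μ (blk a Q n) x * law μ (fun y : ℕ => (y : ZMod p)) r *
        (if B x r then 1 else 0) = 1 / p * μ.P {y | rel β a p y ≠ s} := by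
      intro r
      have e : ∀ x, law μ (blk a Q n) x * law μ (fun y : ℕ => (y : ZMod p)) r *
        (if B x r then 1 else 0) = 1 / p * (law μ (blk a Q n) x * (if B x r then 1 else 0)) := by
        intro x
        rw [law_zmod hν hQ p hp r]
        ring
      rw [Finset.sum_congr rfl (fun x _ => e x), ← Finset.mul_sum, sum_law_ind]
      congr 1
      have : {y | B (blk a Q n y) r} =
          {y | y + Q * kk Q p r ∈ {y | rel β a p y ≠ s}} := by
        ext y; exact hBiff y r
      rw [this]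
      exact condP_shift hν hQ _ _
    rw [Finset.sum_congr rfl (fun r _ => this r)]
    simp only [Finset.sum_const, Finset.card_univ, ZMod.card, nsmul_eq_mul]
    have : (p : ℝ) ≠ 0 := by positivity
    field_simp
  -- the joint side
  have hjoint : ∑ x, ∑ r, law μ (fun y => (blk a Q n y, ((y : ℕ) : ZMod p))) (x, r) *
      (if B x r then 1 else 0) = p * (Q * ν {y | y ≡ u0 [MOD Q] ∧ p ∣ y ∧ rel β a p y ≠ s}) := by
    rw [Finset.sum_comm]
    have : ∀ r : ZMod p, ∑ x, law μ (fun y => (blk a Q n y, ((y : ℕ) : ZMod p))) (x, r) *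
      (if B x r then 1 else 0) = Q * ν {y | y ≡ u0 [MOD Q] ∧ p ∣ y ∧ rel β a p y ≠ s} := by
      intro r
      have h := sum_law_joint μ (blk a Q n) (fun y : ℕ => (y : ZMod p)) r (fun x => B x r)
      rw [h]
      have : {y : ℕ | B (blk a Q n y) r ∧ ((y : ℕ) : ZMod p) = r} =
          {y | y + Q * kk Q p r ∈ {y | p ∣ y ∧ rel β a p y ≠ s}} := by
        ext y
        simp only [Set.mem_ofPred_eq]
        rw [hBiff, dvd_add_kk hp]
        simp only [Set.mem_ofPred_eq]
        tauto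
      rw [this, hμ, condP_shift hν hQ, condP_apply]
      rfl
    rw [Finset.sum_congr rfl (fun r _ => this r)]
    simp only [Finset.sum_const, Finset.card_univ, ZMod.card, nsmul_eq_mul]
  rw [hprod, hjoint] at dv
  rw [miN_eq]
  exact dv

end Pool.Agent.H18.T2
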